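import Mathlib

/-!
# Counting tuples whose image is bad
-/

set_option autoImplicit false
set_option linter.all false

namespace Pool.Agent.K9h5.M

open Finset

/-- labels which separate the elements of the fibres -/
theorem exists_label {α β : Type} [DecidableEq β] (N : Finset α) (f : α → β) (μ : ℕ)
    (h : ∀ b, (N.filter (fun a => f a = b)).card ≤ μ) :
    ∃ l : α → ℕ, (∀ a ∈ N, l a < μ) ∧
      ∀ a ∈ N, ∀ a' ∈ N, f a = f a' → l a = l a' → a = a' := by
  classical
  have h1 : ∀ b, Nonempty ({a // a ∈ N.filter (fun a => f a = b)} ↪ Fin μ) := by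
    intro b
    apply Function.Embedding.nonempty_of_card_le
    rw [Fintype.card_coe, Fintype.card_fin]
    exact h b
  have g : ∀ b, ({a // a ∈ N.filter (fun a => f a = b)} ↪ Fin μ) := fun b => (h1 b).some
  set l : α → ℕ := fun a => if ha : a ∈ N then
    (g (f a) ⟨a, mem_filter.2 ⟨ha, rfl⟩⟩ : ℕ) else 0 with hl
  have h2 : ∀ a (ha : a ∈ N) b (hb : f a = b), l a = (g b ⟨a, mem_filter.2 ⟨ha, hb⟩⟩ : ℕ) := by
    rintro a ha b rfl
    rw [hl]
    simp only
    rw [dif_pos ha]
  refine ⟨l, ?_, ?_⟩
  · intro a ha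
    rw [h2 a ha (f a) rfl]
    exact Fin.is_lt _
  · intro a ha a' ha' hff hll
    rw [h2 a ha (f a') hff, h2 a' ha' (f a') rfl] at hll
    have h3 := (g (f a')).injective (Fin.ext hll)
    exact congrArg Subtype.val h3

/-- **The count.** -/
theorem bad_count {r : ℕ} {α : Type} {β : Fin r → Type} [∀ i, DecidableEq (β i)]
    (N : Finset α) (f : ∀ i, α → β i) (Bad : (∀ i, β i) → Prop) [DecidablePred Bad] (C : ℝ)
    (hC : 0 ≤ C)
    (hsz : ∀ S : ∀ i, Finset (β i), (((Fintype.piFinset S).filter Bad).card : ℝ) ≤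
      C * ((∑ i, ∏ i' ∈ univ.erase i, (S i').card : ℕ) : ℝ))
    (μ : ℕ) (hμ : ∀ i b, (N.filter (fun a => f i a = b)).card ≤ μ) :
    (((Fintype.piFinset (fun _ : Fin r => N)).filter (fun n => Bad (fun i => f i (n i)))).card : ℝ) ≤
      C * ((r * (μ * N.card ^ (r - 1)) : ℕ) : ℝ) := by
  classical
  choose l hl1 hl2 using fun i => exists_label N (f i) μ (hμ i)
  set TT : Finset (Fin r → ℕ) := Fintype.piFinset (fun _ => range μ) with hTT
  set Nt : (Fin r → ℕ) → Fin r → Finset α := fun t i => N.filter (fun a => l i a = t i) with hNt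
  have h1 : (Fintype.piFinset (fun _ : Fin r => N)).filter (fun n => Bad (fun i => f i (n i))) ⊆
      TT.biUnion (fun t => (Fintype.piFinset (Nt t)).filter
        (fun n => Bad (fun i => f i (n i)))) := by
    intro n hn
    rw [mem_filter, Fintype.mem_piFinset] at hn
    rw [mem_biUnion]
    refine ⟨fun i => l i (n i), ?_, ?_⟩
    · rw [hTT, Fintype.mem_piFinset]
      exact fun i => mem_range.2 (hl1 i _ (hn.1 i))
    · rw [mem_filter, Fintype.mem_piFinset]
      exact ⟨fun i => mem_filter.2 ⟨hn.1 i, rfl⟩, hn.2⟩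
  have h2 : ∀ t, (((Fintype.piFinset (Nt t)).filter (fun n => Bad (fun i => f i (n i)))).card : ℝ) ≤
      C * ((∑ i, ∏ i' ∈ univ.erase i, (Nt t i').card : ℕ) : ℝ) := by
    intro t
    have h3 : ((Fintype.piFinset (Nt t)).filter (fun n => Bad (fun i => f i (n i)))).card ≤
        ((Fintype.piFinset (fun i => (Nt t i).image (f i))).filter Bad).card := by
      refine card_le_card_of_injOn (fun n i => f i (n i)) ?_ ?_
      · intro n hn
        rw [mem_coe, mem_filter, Fintype.mem_piFinset] at hn
        rw [mem_coe, mem_filter, Fintype.mem_piFinset]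
        exact ⟨fun i => mem_image_of_mem _ (hn.1 i), hn.2⟩
      · intro n hn n' hn' hnn
        rw [mem_coe, mem_filter, Fintype.mem_piFinset] at hn hn'
        funext i
        have a1 := mem_filter.1 (hn.1 i)
        have a2 := mem_filter.1 (hn'.1 i)
        exact hl2 i _ a1.1 _ a2.1 (congrFun hnn i) (a1.2.trans a2.2.symm)
    have h4 : (((Fintype.piFinset (Nt t)).filter (fun n => Bad (fun i => f i (n i)))).card : ℝ) ≤
        (((Fintype.piFinset (fun i => (Nt t i).image (f i))).filter Bad).card : ℝ) := by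
      exact_mod_cast h3
    refine h4.trans ((hsz _).trans (mul_le_mul_of_nonneg_left ?_ hC))
    have h5 : (∑ i, ∏ i' ∈ univ.erase i, ((Nt t i').image (f i')).card) ≤
        ∑ i, ∏ i' ∈ univ.erase i, (Nt t i').card :=
      sum_le_sum fun i _ => prod_le_prod' fun i' _ => card_image_le
    exact_mod_cast h5
  have h3 : ∑ t ∈ TT, (∑ i, ∏ i' ∈ univ.erase i, (Nt t i').card) = r * (μ * N.card ^ (r - 1)) := by
    rw [sum_comm]
    have h4 : ∀ i : Fin r, ∑ t ∈ TT, ∏ i' ∈ univ.erase i, (Nt t i').card =
        μ * N.card ^ (r - 1) := by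
      intro i
      have h5 : ∀ t ∈ TT, ∏ i' ∈ univ.erase i, (Nt t i').card =
          ∏ i', (if i' = i then 1 else (N.filter (fun a => l i' a = t i')).card) := by
        intro t _
        rw [← mul_prod_erase (univ : Finset (Fin r)) _ (mem_univ i), if_pos rfl, one_mul]
        refine prod_congr rfl fun i' hi' => ?_
        rw [if_neg (mem_erase.1 hi').1]
      rw [sum_congr rfl h5]
      have h6 := Finset.prod_univ_sum (fun _ : Fin r => range μ)
        (fun i' s => if i' = i then 1 else (N.filter (fun a => l i' a = s)).card)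
      rw [← hTT] at h6
      rw [← h6, ← mul_prod_erase (univ : Finset (Fin r)) _ (mem_univ i)]
      congr 1
      · simp
      · have h7 : ∀ i' ∈ univ.erase i, ∑ s ∈ range μ,
            (if i' = i then 1 else (N.filter (fun a => l i' a = s)).card) = N.card := by
          intro i' hi'
          simp only [if_neg (mem_erase.1 hi').1]
          exact (card_eq_sum_card_fiberwise (f := l i') (s := N) (t := range μ)
            (fun a ha => mem_coe.2 (mem_range.2 (hl1 i' a ha)))).symm
        rw [prod_congr rfl h7, prod_const, card_erase_of_mem (mem_univ i), card_univ,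
          Fintype.card_fin]
    rw [sum_congr rfl fun i _ => h4 i, sum_const, card_univ, Fintype.card_fin, smul_eq_mul]
  have h4 : (((Fintype.piFinset (fun _ : Fin r => N)).filter
      (fun n => Bad (fun i => f i (n i)))).card : ℝ) ≤
      ∑ t ∈ TT, (((Fintype.piFinset (Nt t)).filter (fun n => Bad (fun i => f i (n i)))).card : ℝ) := by
    exact_mod_cast (card_le_card h1).trans card_biUnion_le
  refine h4.trans ((sum_le_sum fun t _ => h2 t).trans ?_)
  rw [← mul_sum, ← Nat.cast_sum, h3]

end Pool.Agent.K9h5.M
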