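import Mathlib

/-!
# A bilinear bound for correlations of functions on two finite groups
-/

set_option autoImplicit false
set_option linter.all false

namespace Pool.Agent.K9h5.M

open Finset

/-- the autocorrelation from the fourfold correlations -/
theorem corr2 {H : Type} [AddCommGroup H] [Fintype H] [DecidableEq H] (G : H → ℝ)
    (hG : ∀ u, |G u| ≤ 1) (Bd : Finset H) (E : ℝ) (hE : 0 ≤ E)
    (h4 : ∀ h h', h ∉ Bd → h' ∉ Bd → h + h' ∉ Bd → h - h' ∉ Bd →
      |∑ u, G u * G (u + h) * G (u + h') * G (u + (h + h'))| ≤ E) (h : H) (hh : h ∉ Bd) :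
    (∑ u, G u * G (u + h)) ^ 2 ≤ Fintype.card H * (E + 3 * Bd.card) := by
  have hcardpos : (0 : ℝ) ≤ Fintype.card H := Nat.cast_nonneg _
  have e1 : (∑ u, G u * G (u + h)) ^ 2 =
      ∑ h', ∑ u, G u * G (u + h) * G (u + h') * G (u + (h + h')) := by
    rw [sq, sum_mul_sum, sum_comm (γ := H)]
    rw [sum_comm (γ := H)]
    have : ∀ u, ∑ v, (G u * G (u + h)) * (G v * G (v + h)) =
        ∑ h', G u * G (u + h) * G (u + h') * G (u + (h + h')) := by
      intro u
      rw [← Equiv.sum_comp (Equiv.addLeft u)]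
      refine sum_congr rfl fun h' _ => ?_
      rw [Equiv.coe_addLeft]
      have : u + h' + h = u + (h + h') := by abel
      rw [this]
      ring
    rw [sum_congr rfl fun u _ => this u, sum_comm]
  set Bh : Finset H := Bd ∪ (univ.filter (fun h' => h + h' ∈ Bd) ∪
    univ.filter (fun h' => h - h' ∈ Bd)) with hBh
  have hB1 : (univ.filter (fun h' => h + h' ∈ Bd)).card ≤ Bd.card := by
    refine card_le_card_of_injOn (fun h' => h + h') ?_ ?_
    · intro x hx
      rw [mem_coe, mem_filter] at hx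
      exact hx.2
    · intro x _ y _ hxy
      exact add_left_cancel hxy
  have hB2 : (univ.filter (fun h' => h - h' ∈ Bd)).card ≤ Bd.card := by
    refine card_le_card_of_injOn (fun h' => h - h') ?_ ?_
    · intro x hx
      rw [mem_coe, mem_filter] at hx
      exact hx.2
    · intro x _ y _ hxy
      exact sub_right_injective hxy
  have hBc : (Bh.card : ℝ) ≤ 3 * Bd.card := by
    have h1 := card_union_le Bd (univ.filter (fun h' => h + h' ∈ Bd) ∪
      univ.filter (fun h' => h - h' ∈ Bd))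
    have h2 := card_union_le (univ.filter (fun h' => h + h' ∈ Bd))
      (univ.filter (fun h' => h - h' ∈ Bd))
    have h3 : Bh.card ≤ 3 * Bd.card := by rw [hBh]; omega
    exact_mod_cast h3
  rw [e1]
  have h5 : ∀ h', ∑ u, G u * G (u + h) * G (u + h') * G (u + (h + h')) ≤
      E + (if h' ∈ Bh then (Fintype.card H : ℝ) else 0) := by
    intro h'
    by_cases hb : h' ∈ Bh
    · rw [if_pos hb]
      have h6 : ∑ u, G u * G (u + h) * G (u + h') * G (u + (h + h')) ≤ ∑ u : H, (1 : ℝ) := by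
        refine sum_le_sum fun u _ => ?_
        refine (le_abs_self _).trans ?_
        rw [abs_mul, abs_mul, abs_mul]
        have a1 := hG u
        have a2 := hG (u + h)
        have a3 := hG (u + h')
        have a4 := hG (u + (h + h'))
        have b1 : |G u| * |G (u + h)| ≤ 1 := mul_le_one₀ a1 (abs_nonneg _) a2
        have b2 : |G u| * |G (u + h)| * |G (u + h')| ≤ 1 := mul_le_one₀ b1 (abs_nonneg _) a3
        exact mul_le_one₀ b2 (abs_nonneg _) a4
      rw [sum_const, card_univ, nsmul_eq_mul, mul_one] at h6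
      linarith
    · rw [if_neg hb, add_zero]
      rw [hBh, mem_union, mem_union, mem_filter, mem_filter] at hb
      push Not at hb
      exact (le_abs_self _).trans (h4 h h' hh hb.1 (hb.2.1 (mem_univ _)) (hb.2.2 (mem_univ _)))
  refine (sum_le_sum fun h' _ => h5 h').trans ?_
  rw [sum_add_distrib, sum_const, card_univ, nsmul_eq_mul, ← sum_filter, sum_const, nsmul_eq_mul,
    filter_mem_eq_inter, univ_inter]
  nlinarith

/-- **The bilinear bound.** -/
theorem bil {Z H H' : Type} [AddCommGroup Z] [DecidableEq Z] [AddCommGroup H] [Fintype H]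
    [DecidableEq H] [AddCommGroup H'] [Fintype H'] [DecidableEq H']
    (φ : Z →+ H) (φ' : Z →+ H') (x : H) (x' : H') (G : H → ℝ) (G' : H' → ℝ)
    (hG : ∀ u, |G u| ≤ 1) (hG' : ∀ u, |G' u| ≤ 1)
    (Bd : Finset H) (D : ℝ) (hD : 0 ≤ D) (hc : ∀ h, h ∉ Bd → |∑ u, G u * G (u + h)| ≤ D)
    (A B : Finset Z) (μA μB μJ : ℝ)
    (hA : ∀ h, ((A.filter (fun a => φ a = h)).card : ℝ) ≤ μA)
    (hB : ∀ w, ((B.filter (fun b => φ' b = w)).card : ℝ) ≤ μB)
    (hJ : ∀ h w, ((B.filter (fun b => φ b = h ∧ φ' b = w)).card : ℝ) ≤ μJ) :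
    (∑ a ∈ A, ∑ b ∈ B, G (x + φ (a + b)) * G' (x' + φ' (a + b))) ^ 2 ≤
      A.card * Fintype.card H' *
        (μA * (B.card * μB * D + B.card * Bd.card * μJ * Fintype.card H)) := by
  classical
  have hμA : 0 ≤ μA := (Nat.cast_nonneg _).trans (hA 0)
  have hμJ : 0 ≤ μJ := (Nat.cast_nonneg _).trans (hJ 0 0)
  have hH0 : (0 : ℝ) ≤ Fintype.card H := Nat.cast_nonneg _
  set Bw : H' → Finset Z := fun w => B.filter (fun b => φ' b = w) with hBw
  set S : H → H' → ℝ := fun u w => ∑ b ∈ Bw w, G (u + φ b) with hS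
  -- grouping
  have e1 : ∑ a ∈ A, ∑ b ∈ B, G (x + φ (a + b)) * G' (x' + φ' (a + b)) =
      ∑ z ∈ A ×ˢ (univ : Finset H'), G' (x' + φ' z.1 + z.2) * S (x + φ z.1) z.2 := by
    rw [sum_product]
    refine sum_congr rfl fun a _ => ?_
    rw [← sum_fiberwise (s := B) (g := φ')]
    refine sum_congr rfl fun w _ => ?_
    rw [hS, mul_sum]
    refine sum_congr rfl fun b hb => ?_
    rw [mem_filter] at hb
    rw [map_add, map_add, hb.2, ← add_assoc, ← add_assoc, mul_comm]
  rw [e1]
  have h1 := sum_mul_sq_le_sq_mul_sq (A ×ˢ (univ : Finset H'))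
    (fun z => G' (x' + φ' z.1 + z.2)) (fun z => S (x + φ z.1) z.2)
  refine h1.trans ?_
  have h2 : ∑ z ∈ A ×ˢ (univ : Finset H'), (G' (x' + φ' z.1 + z.2)) ^ 2 ≤
      A.card * Fintype.card H' := by
    have h3 : ∑ z ∈ A ×ˢ (univ : Finset H'), (G' (x' + φ' z.1 + z.2)) ^ 2 ≤
        ∑ z ∈ A ×ˢ (univ : Finset H'), (1 : ℝ) := by
      refine sum_le_sum fun z _ => ?_
      rw [sq_le_one_iff_abs_le_one]
      exact hG' _
    rw [sum_const, card_product, card_univ, nsmul_eq_mul, mul_one] at h3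
    push_cast at h3
    exact h3
  -- the multiplicity
  have h3 : ∑ z ∈ A ×ˢ (univ : Finset H'), (S (x + φ z.1) z.2) ^ 2 ≤
      μA * ∑ w, ∑ u, (S u w) ^ 2 := by
    rw [sum_product, sum_comm, mul_sum]
    refine sum_le_sum fun w _ => ?_
    have h4 : ∑ a ∈ A, (S (x + φ a) w) ^ 2 =
        ∑ h, ((A.filter (fun a => φ a = h)).card : ℝ) * (S (x + h) w) ^ 2 := by
      rw [← sum_fiberwise (s := A) (g := φ)]
      refine sum_congr rfl fun h _ => ?_
      rw [← nsmul_eq_mul, ← sum_const]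
      refine sum_congr rfl fun a ha => ?_
      rw [(mem_filter.1 ha).2]
    rw [h4]
    calc ∑ h, ((A.filter (fun a => φ a = h)).card : ℝ) * (S (x + h) w) ^ 2 ≤
        ∑ h, μA * (S (x + h) w) ^ 2 := sum_le_sum fun h _ =>
          mul_le_mul_of_nonneg_right (hA h) (sq_nonneg _)
      _ = μA * ∑ h, (S (x + h) w) ^ 2 := by rw [mul_sum]
      _ = μA * ∑ u, (S u w) ^ 2 := by
        congr 1
        exact Equiv.sum_comp (Equiv.addLeft x) (fun u => (S u w) ^ 2)
  -- the correlations
  have h5 : ∀ w, ∑ u, (S u w) ^ 2 = ∑ b ∈ Bw w, ∑ b' ∈ Bw w, ∑ u, G u * G (u + (φ b' - φ b)) := by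
    intro w
    have h6 : ∀ u, (S u w) ^ 2 = ∑ b ∈ Bw w, ∑ b' ∈ Bw w, G (u + φ b) * G (u + φ b') := by
      intro u
      rw [hS, sq, sum_mul_sum]
    rw [sum_congr rfl fun u _ => h6 u, sum_comm]
    refine sum_congr rfl fun b _ => ?_
    rw [sum_comm]
    refine sum_congr rfl fun b' _ => ?_
    rw [← Equiv.sum_comp (Equiv.addRight (φ b)) (fun u => G u * G (u + (φ b' - φ b)))]
    refine sum_congr rfl fun u _ => ?_
    have e3 : u + φ b + (φ b' - φ b) = u + φ b' := by abel
    rw [Equiv.coe_addRight]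
    show G (u + φ b) * G (u + φ b') = G (u + φ b) * G (u + φ b + (φ b' - φ b))
    rw [e3]
  have h6 : ∀ w, ∑ u, (S u w) ^ 2 ≤ (Bw w).card * μB * D +
      (Bw w).card * Bd.card * μJ * Fintype.card H := by
    intro w
    rw [h5]
    have h7 : ∀ b ∈ Bw w, ∑ b' ∈ Bw w, ∑ u, G u * G (u + (φ b' - φ b)) ≤
        μB * D + Bd.card * μJ * Fintype.card H := by
      intro b hb
      have h8 : ∀ b' ∈ Bw w, ∑ u, G u * G (u + (φ b' - φ b)) ≤
          D + (if φ b' - φ b ∈ Bd then (Fintype.card H : ℝ) else 0) := by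
        intro b' _
        by_cases hbd : φ b' - φ b ∈ Bd
        · rw [if_pos hbd]
          have h9 : ∑ u, G u * G (u + (φ b' - φ b)) ≤ ∑ u : H, (1 : ℝ) := by
            refine sum_le_sum fun u _ => ?_
            refine (le_abs_self _).trans ?_
            rw [abs_mul]
            exact mul_le_one₀ (hG _) (abs_nonneg _) (hG _)
          rw [sum_const, card_univ, nsmul_eq_mul, mul_one] at h9
          linarith
        · rw [if_neg hbd, add_zero]
          exact (le_abs_self _).trans (hc _ hbd)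
      refine (sum_le_sum h8).trans ?_
      rw [sum_add_distrib, sum_const, nsmul_eq_mul, ← sum_filter, sum_const, nsmul_eq_mul]
      have h9 : (((Bw w).filter (fun b' => φ b' - φ b ∈ Bd)).card : ℝ) ≤ Bd.card * μJ := by
        have h10 : (Bw w).filter (fun b' => φ b' - φ b ∈ Bd) ⊆
            Bd.biUnion (fun h => B.filter (fun b' => φ b' = φ b + h ∧ φ' b' = w)) := by
          intro b' hb'
          rw [mem_filter, hBw, mem_filter] at hb'
          rw [mem_biUnion]
          refine ⟨φ b' - φ b, hb'.2, ?_⟩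
          rw [mem_filter]
          exact ⟨hb'.1.1, by abel, hb'.1.2⟩
        have h11 : (((Bw w).filter (fun b' => φ b' - φ b ∈ Bd)).card : ℝ) ≤
            ∑ h ∈ Bd, ((B.filter (fun b' => φ b' = φ b + h ∧ φ' b' = w)).card : ℝ) := by
          exact_mod_cast (card_le_card h10).trans card_biUnion_le
        refine h11.trans ((sum_le_sum fun h _ => hJ (φ b + h) w).trans ?_)
        rw [sum_const, nsmul_eq_mul]
      have h12 : ((Bw w).card : ℝ) * D ≤ μB * D := mul_le_mul_of_nonneg_right (hB w) hD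
      have h13 := mul_le_mul_of_nonneg_right h9 hH0
      linarith
    refine (sum_le_sum h7).trans ?_
    rw [sum_const, nsmul_eq_mul]
    refine le_of_eq ?_
    ring
  have h7 : ∑ w, ∑ u, (S u w) ^ 2 ≤
      B.card * μB * D + B.card * Bd.card * μJ * Fintype.card H := by
    refine (sum_le_sum fun w _ => h6 w).trans (le_of_eq ?_)
    have h8 : ∑ w, ((Bw w).card : ℝ) = B.card := by
      have := card_eq_sum_card_fiberwise (s := B) (t := (univ : Finset H')) (f := φ')
        (fun b _ => mem_coe.2 (mem_univ _))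
      rw [this]
      push_cast
      rfl
    rw [sum_add_distrib, ← h8]
    simp only [sum_mul]
  have h8 := h3.trans (mul_le_mul_of_nonneg_left h7 hμA)
  have h9 : (0 : ℝ) ≤ ∑ z ∈ A ×ˢ (univ : Finset H'), (S (x + φ z.1) z.2) ^ 2 :=
    sum_nonneg fun z _ => sq_nonneg _
  exact mul_le_mul h2 h8 h9 (by positivity)

end Pool.Agent.K9h5.M
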