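import Mathlib
import Pool.Agent.K9h5.N.Gen1

/-!
# Boxes of integral vectors and the kernels of reductions
-/

set_option autoImplicit false
set_option linter.all false

namespace Pool.Agent.K9h5.M

open Finset Pool.Agent.H901R3.MS Pool.Agent.K9h5 Pool.Agent.K9h5.N

/-- the integral vectors with entries of size at most `R` -/
noncomputable def Iz (m R : ℕ) : Finset (Fin m → ℤ) := Fintype.piFinset (fun _ => Finset.Icc (-(R : ℤ)) R)

/-- the integral vectors with entries in `[0, T)` -/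
noncomputable def Iz0 (m T : ℕ) : Finset (Fin m → ℤ) := Fintype.piFinset (fun _ => Finset.Ico 0 (T : ℤ))

theorem mem_Iz {m R : ℕ} {v : Fin m → ℤ} : v ∈ Iz m R ↔ ∀ k, -(R : ℤ) ≤ v k ∧ v k ≤ R := by
  simp [Iz, Fintype.mem_piFinset]

theorem mem_Iz0 {m T : ℕ} {v : Fin m → ℤ} : v ∈ Iz0 m T ↔ ∀ k, 0 ≤ v k ∧ v k < T := by
  simp [Iz0, Fintype.mem_piFinset]

theorem Iz_card (m R : ℕ) : (Iz m R).card = (2 * R + 1) ^ m := by
  rw [Iz, Fintype.card_piFinset, prod_const, card_univ, Fintype.card_fin, Int.card_Icc]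
  congr 1
  omega

theorem Iz0_card (m T : ℕ) : (Iz0 m T).card = T ^ m := by
  rw [Iz0, Fintype.card_piFinset, prod_const, card_univ, Fintype.card_fin, Int.card_Ico]
  congr 1

theorem sub_Iz {m R : ℕ} {u v : Fin m → ℤ} (hu : u ∈ Iz m R) (hv : v ∈ Iz m R) :
    u - v ∈ Iz m (2 * R) := by
  rw [mem_Iz] at *
  intro k
  have h1 := hu k
  have h2 := hv k
  rw [Pi.sub_apply]
  push_cast
  constructor <;> omega

theorem sub_Iz0 {m T : ℕ} {u v : Fin m → ℤ} (hu : u ∈ Iz0 m T) (hv : v ∈ Iz0 m T) :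
    u - v ∈ Iz m T := by
  rw [mem_Iz0] at *
  rw [mem_Iz]
  intro k
  have h1 := hu k
  have h2 := hv k
  rw [Pi.sub_apply]
  constructor <;> omega

theorem Iz_mono {m R R' : ℕ} (h : R ≤ R') : Iz m R ⊆ Iz m R' := by
  intro v hv
  rw [mem_Iz] at *
  intro k
  have := hv k
  constructor <;> omega

/-- fibres of homomorphisms -/
theorem fib_le {Z H : Type} [AddCommGroup Z] [AddCommGroup H] [DecidableEq Z] [DecidableEq H]
    (φ : Z →+ H) (A C : Finset Z) (hAC : ∀ u ∈ A, ∀ v ∈ A, u - v ∈ C) (h : H) :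
    (A.filter (fun a => φ a = h)).card ≤ (C.filter (fun v => φ v = 0)).card := by
  rcases (A.filter (fun a => φ a = h)).eq_empty_or_nonempty with he | ⟨a₀, ha₀⟩
  · rw [he, card_empty]
    exact Nat.zero_le _
  · rw [mem_filter] at ha₀
    refine card_le_card_of_injOn (fun a => a - a₀) ?_ ?_
    · intro a ha
      rw [mem_coe, mem_filter] at ha
      rw [mem_coe, mem_filter]
      refine ⟨hAC a ha.1 a₀ ha₀.1, ?_⟩
      rw [map_sub, ha.2, ha₀.2, sub_self]
    · intro a _ a' _ haa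
      exact sub_left_injective haa

/-- integral linear combinations -/
def lin {G : Type} [AddCommGroup G] {m : ℕ} (e : Fin m → G) : (Fin m → ℤ) →+ G where
  toFun v := ∑ k, v k • e k
  map_zero' := by simp
  map_add' u v := by
    rw [← sum_add_distrib]
    exact sum_congr rfl fun k _ => by rw [Pi.add_apply, add_smul]

theorem lin_apply {G : Type} [AddCommGroup G] {m : ℕ} (e : Fin m → G) (v : Fin m → ℤ) :
    lin e v = ∑ k, v k • e k := rfl

theorem map_lin {G H : Type} [AddCommGroup G] [AddCommGroup H] {m : ℕ} (f : G →+ H)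
    (e : Fin m → G) (v : Fin m → ℤ) : f (lin e v) = lin (fun k => f (e k)) v := by
  rw [lin_apply, lin_apply, map_sum]
  exact sum_congr rfl fun k _ => map_zsmul _ _ _

/-- the vector `v` is in the kernel modulo `p` -/
def KP {a b : ℤ} {Gp : Type} [AddCommGroup Gp]
    (rr : ∀ (p : ℕ) [Fact p.Prime], Gp →+ Pt (a : ZMod p) (b : ZMod p)) {m : ℕ} (e : Fin m → Gp)
    (p : ℕ) (v : Fin m → ℤ) : Prop := ∃ hp : Fact p.Prime, @rr p hp (lin e v) = 0

open Classical in
theorem nker {a b : ℤ} {Gp : Type} [AddCommGroup Gp] {hP : Gp → ℝ} {Adm : ℕ → Prop}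
    {rr : ∀ (p : ℕ) [Fact p.Prime], Gp →+ Pt (a : ZMod p) (b : ZMod p)} (hK : Kill hP Adm rr)
    {m : ℕ} {e : Fin m → Gp} {c : ℝ} (he : HBg hP e c) (PP : Finset ℕ)
    (hPP : ∀ p ∈ PP, ∃ hp : Fact p.Prime, Adm p ∧ Disc (a : ZMod p) (b : ZMod p)) (R : ℕ)
    (hR : 1 ≤ R) (v : Fin m → ℤ) (hv : v ∈ Iz m R) (hv0 : v ≠ 0) :
    ((PP.filter (fun p => KP rr e p v)).card : ℝ) ≤ c * (R : ℝ) ^ 2 / Real.log 2 := by
  have hlog : 0 < Real.log 2 := Real.log_pos (by norm_num)
  have hRr : (1 : ℝ) ≤ R := by exact_mod_cast hR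
  have h1 := hK (lin e v) (fun h => hv0 (he.2.1 v h)) (PP.filter (fun p => KP rr e p v)) (by
    intro p hp
    rw [mem_filter] at hp
    obtain ⟨hpf, hA, hD⟩ := hPP p hp.1
    obtain ⟨hpf', h0⟩ := hp.2
    exact ⟨hpf, hA, hD, h0⟩)
  have h2 : hP (lin e v) ≤ c * (R : ℝ) ^ 2 := by
    refine he.2.2 v R hRr ?_
    intro k
    have := mem_Iz.1 hv k
    rw [abs_le]
    constructor
    · exact_mod_cast this.1
    · exact_mod_cast this.2
  rw [le_div_iff₀ hlog]
  exact h1.trans h2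

open Classical in
/-- the average size of the kernels -/
theorem kcount {a b : ℤ} {Gp : Type} [AddCommGroup Gp] {hP : Gp → ℝ} {Adm : ℕ → Prop}
    {rr : ∀ (p : ℕ) [Fact p.Prime], Gp →+ Pt (a : ZMod p) (b : ZMod p)} (hK : Kill hP Adm rr)
    {m : ℕ} {e : Fin m → Gp} {c : ℝ} (he : HBg hP e c) (PP : Finset ℕ)
    (hPP : ∀ p ∈ PP, ∃ hp : Fact p.Prime, Adm p ∧ Disc (a : ZMod p) (b : ZMod p)) (R : ℕ)
    (hR : 1 ≤ R) :
    ∑ p ∈ PP, (((Iz m R).filter (fun v => KP rr e p v)).card : ℝ) ≤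
      PP.card + ((2 * R + 1 : ℕ) : ℝ) ^ m * (c * (R : ℝ) ^ 2 / Real.log 2) := by
  have hlog : 0 < Real.log 2 := Real.log_pos (by norm_num)
  have hc0 : 0 ≤ c := by linarith [he.1]
  have h1 : ∑ p ∈ PP, (((Iz m R).filter (fun v => KP rr e p v)).card : ℝ) =
      ∑ v ∈ Iz m R, ((PP.filter (fun p => KP rr e p v)).card : ℝ) := by
    have := sum_card_bipartiteAbove_eq_sum_card_bipartiteBelow (s := PP) (t := Iz m R)
      (fun p v => KP rr e p v)
    unfold bipartiteAbove bipartiteBelow at this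
    exact_mod_cast this
  rw [h1]
  have h2 : ∀ v ∈ Iz m R, ((PP.filter (fun p => KP rr e p v)).card : ℝ) ≤
      (if v = 0 then (PP.card : ℝ) else 0) + c * (R : ℝ) ^ 2 / Real.log 2 := by
    intro v hv
    have h3 : 0 ≤ c * (R : ℝ) ^ 2 / Real.log 2 := by positivity
    by_cases hv0 : v = 0
    · rw [if_pos hv0]
      have h4 : ((PP.filter (fun p => KP rr e p v)).card : ℝ) ≤ PP.card := by
        exact_mod_cast card_le_card (filter_subset _ _)
      linarith
    · rw [if_neg hv0, zero_add]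
      exact nker hK he PP hPP R hR v hv hv0
  refine (sum_le_sum h2).trans ?_
  rw [sum_add_distrib, sum_ite_eq', sum_const, Iz_card, nsmul_eq_mul]
  push_cast
  split_ifs with h
  · exact le_rfl
  · have : (0 : ℝ) ≤ PP.card := Nat.cast_nonneg _
    linarith

open Classical in
/-- the average size of the intersections of two kernels -/
theorem jcount {a b : ℤ} {Gp : Type} [AddCommGroup Gp] {hP : Gp → ℝ} {Adm : ℕ → Prop}
    {rr : ∀ (p : ℕ) [Fact p.Prime], Gp →+ Pt (a : ZMod p) (b : ZMod p)} (hK : Kill hP Adm rr)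
    {m : ℕ} {e : Fin m → Gp} {c : ℝ} (he : HBg hP e c) (PP : Finset ℕ)
    (hPP : ∀ p ∈ PP, ∃ hp : Fact p.Prime, Adm p ∧ Disc (a : ZMod p) (b : ZMod p)) (R : ℕ)
    (hR : 1 ≤ R) :
    ∑ z ∈ PP ×ˢ PP, (((Iz m R).filter (fun v => KP rr e z.1 v ∧ KP rr e z.2 v)).card : ℝ) ≤
      (PP.card : ℝ) ^ 2 + ((2 * R + 1 : ℕ) : ℝ) ^ m * (c * (R : ℝ) ^ 2 / Real.log 2) ^ 2 := by
  have hlog : 0 < Real.log 2 := Real.log_pos (by norm_num)
  have hc0 : 0 ≤ c := by linarith [he.1]
  have h1 : ∑ z ∈ PP ×ˢ PP, (((Iz m R).filter (fun v => KP rr e z.1 v ∧ KP rr e z.2 v)).card : ℝ) =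
      ∑ v ∈ Iz m R, ((PP.filter (fun p => KP rr e p v)).card : ℝ) ^ 2 := by
    have := sum_card_bipartiteAbove_eq_sum_card_bipartiteBelow (s := PP ×ˢ PP) (t := Iz m R)
      (fun z v => KP rr e z.1 v ∧ KP rr e z.2 v)
    unfold bipartiteAbove bipartiteBelow at this
    have h2 : ∀ v, ((PP ×ˢ PP).filter (fun z => KP rr e z.1 v ∧ KP rr e z.2 v)).card =
        (PP.filter (fun p => KP rr e p v)).card ^ 2 := by
      intro v
      rw [sq, ← card_product]
      congr 1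
      ext z
      simp only [mem_filter, mem_product]
      tauto
    simp only [h2] at this
    exact_mod_cast this
  rw [h1]
  have h2 : ∀ v ∈ Iz m R, ((PP.filter (fun p => KP rr e p v)).card : ℝ) ^ 2 ≤
      (if v = 0 then (PP.card : ℝ) ^ 2 else 0) + (c * (R : ℝ) ^ 2 / Real.log 2) ^ 2 := by
    intro v hv
    have h3 : 0 ≤ (c * (R : ℝ) ^ 2 / Real.log 2) ^ 2 := by positivity
    by_cases hv0 : v = 0
    · rw [if_pos hv0]
      have h4 : ((PP.filter (fun p => KP rr e p v)).card : ℝ) ≤ PP.card := by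
        exact_mod_cast card_le_card (filter_subset _ _)
      have h5 := pow_le_pow_left₀ (Nat.cast_nonneg _) h4 2
      linarith
    · rw [if_neg hv0, zero_add]
      exact pow_le_pow_left₀ (Nat.cast_nonneg _) (nker hK he PP hPP R hR v hv hv0) 2
  refine (sum_le_sum h2).trans ?_
  rw [sum_add_distrib, sum_ite_eq', sum_const, Iz_card, nsmul_eq_mul]
  push_cast
  split_ifs with h
  · exact le_rfl
  · have : (0 : ℝ) ≤ (PP.card : ℝ) ^ 2 := sq_nonneg _
    linarith

end Pool.Agent.K9h5.M
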