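import Mathlib
import Pool.Agent.K9h5.Prm

/-!
# Estimates, and the supply of primes
-/

set_option autoImplicit false
set_option linter.all false

namespace Pool.Agent.K9h5.M

open Finset Filter Pool.Agent.K9h5

theorem est1 (C₁ K x : ℝ) (hC : 0 ≤ C₁) (hK : 0 ≤ K) (hx : 1 ≤ x) :
    √(K * x * √(2 * x * (C₁ * √x + 2 * C₁))) ≤ √(K * √(6 * C₁)) * x ^ (7 / 8 : ℝ) := by
  have hx0 : 0 < x := by linarith
  have hs : 1 ≤ √x := by rw [Real.one_le_sqrt]; exact hx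
  have h1 : 2 * x * (C₁ * √x + 2 * C₁) ≤ (6 * C₁) * x ^ (3 / 2 : ℝ) := by
    have e1 : x ^ (3 / 2 : ℝ) = x * √x := by
      rw [Real.sqrt_eq_rpow]
      nth_rewrite 2 [← Real.rpow_one x]
      rw [← Real.rpow_add hx0]
      norm_num
    rw [e1]
    have h2 : C₁ * 1 ≤ C₁ * √x := mul_le_mul_of_nonneg_left hs hC
    have h3 : 2 * x * (C₁ * √x + 2 * C₁) ≤ 2 * x * (3 * (C₁ * √x)) := by
      apply mul_le_mul_of_nonneg_left _ (by linarith)
      linarith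
    refine h3.trans (le_of_eq ?_)
    ring
  have h2 : √(2 * x * (C₁ * √x + 2 * C₁)) ≤ √(6 * C₁) * x ^ (3 / 4 : ℝ) := by
    refine (Real.sqrt_le_sqrt h1).trans (le_of_eq ?_)
    rw [Real.sqrt_mul (by positivity)]
    congr 1
    rw [Real.sqrt_eq_rpow, ← Real.rpow_mul hx0.le]
    norm_num
  have h3 : K * x * √(2 * x * (C₁ * √x + 2 * C₁)) ≤ (K * √(6 * C₁)) * x ^ (7 / 4 : ℝ) := by
    have e2 : x ^ (7 / 4 : ℝ) = x * x ^ (3 / 4 : ℝ) := by
      nth_rewrite 2 [← Real.rpow_one x]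
      rw [← Real.rpow_add hx0]
      norm_num
    rw [e2]
    calc K * x * √(2 * x * (C₁ * √x + 2 * C₁)) ≤ K * x * (√(6 * C₁) * x ^ (3 / 4 : ℝ)) :=
          mul_le_mul_of_nonneg_left h2 (by positivity)
      _ = (K * √(6 * C₁)) * (x * x ^ (3 / 4 : ℝ)) := by ring
  refine (Real.sqrt_le_sqrt h3).trans (le_of_eq ?_)
  rw [Real.sqrt_mul (by positivity)]
  congr 1
  rw [Real.sqrt_eq_rpow, ← Real.rpow_mul hx0.le]
  norm_num

theorem est2 (x : ℝ) (hx : 1 ≤ x) :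
    x ^ (7 / 8 : ℝ) / x ^ (995 / 1000 : ℝ) ≤ x ^ (-(12 / 100) : ℝ) := by
  have hx0 : 0 < x := by linarith
  rw [← Real.rpow_sub hx0]
  exact Real.rpow_le_rpow_of_exponent_le hx (by norm_num)

theorem est3 (x : ℝ) (hx : 1 ≤ x) :
    1 / √(x ^ (995 / 1000 : ℝ)) ≤ x ^ (-(12 / 100) : ℝ) := by
  have hx0 : 0 < x := by linarith
  rw [Real.sqrt_eq_rpow, ← Real.rpow_mul hx0.le, one_div, ← Real.rpow_neg hx0.le]
  exact Real.rpow_le_rpow_of_exponent_le hx (by norm_num)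

theorem est4 (x : ℝ) (hx : 1 ≤ x) :
    x / (x ^ (995 / 1000 : ℝ) * √(x ^ (995 / 1000 : ℝ))) ≤ x ^ (-(12 / 100) : ℝ) := by
  have hx0 : 0 < x := by linarith
  rw [Real.sqrt_eq_rpow, ← Real.rpow_mul hx0.le, ← Real.rpow_add hx0]
  nth_rewrite 1 [← Real.rpow_one x]
  rw [← Real.rpow_sub hx0]
  exact Real.rpow_le_rpow_of_exponent_le hx (by norm_num)

theorem est5 (x : ℝ) (hx : 1 ≤ x) :
    1 / x ^ (995 / 1000 : ℝ) ≤ x ^ (-(12 / 100) : ℝ) := by
  have hx0 : 0 < x := by linarith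
  rw [one_div, ← Real.rpow_neg hx0.le]
  exact Real.rpow_le_rpow_of_exponent_le hx (by norm_num)

open Classical in
/-- the supply of primes -/
theorem primes_big (Adm : ℕ → Prop)
    (hsup : ∃ cP : ℝ, 0 < cP ∧ ∃ TP : ℕ, ∀ X : ℕ, TP ≤ X → cP * (X / Real.log X) ≤
      (((range (X + 1)).filter (fun p => p.Prime ∧ Adm p)).card : ℝ)) (p₀ : ℕ) :
    ∃ X₀ : ℕ, ∀ X : ℕ, X₀ ≤ X → 2 * (X : ℝ) ^ (995 / 1000 : ℝ) ≤
      (((range (X + 1)).filter (fun p => p.Prime ∧ Adm p ∧ p₀ ≤ p)).card : ℝ) := by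
  obtain ⟨cP, hcP, TP, hTP⟩ := hsup
  have hev := (ev_log (t := 1 / 1000) (c := cP / 2) (by norm_num) (by positivity)).and
    ((ev_pow (s := 995 / 1000) (t := 999 / 1000) 2 (by norm_num)).and
      ((ev_pow (s := 0) (t := 999 / 1000) p₀ (by norm_num)).and
        ((eventually_ge_atTop TP).and (eventually_ge_atTop 3))))
  rw [eventually_atTop] at hev
  obtain ⟨X₀, hX₀⟩ := hev
  refine ⟨X₀, fun X hX => ?_⟩
  obtain ⟨h1, h2, h3, h4, h5⟩ := hX₀ X hX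
  have hXr : (3 : ℝ) ≤ X := by exact_mod_cast h5
  have hX0 : (0 : ℝ) < X := by linarith
  have hlog : 0 < Real.log X := Real.log_pos (by linarith)
  have hmain : 2 * (X : ℝ) ^ (999 / 1000 : ℝ) ≤ cP * (X / Real.log X) := by
    have k1 : (X : ℝ) = (X : ℝ) ^ (999 / 1000 : ℝ) * (X : ℝ) ^ (1 / 1000 : ℝ) := by
      rw [← Real.rpow_add hX0]
      norm_num
    rw [mul_div_assoc', le_div_iff₀ hlog]
    calc 2 * (X : ℝ) ^ (999 / 1000 : ℝ) * Real.log X ≤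
        2 * (X : ℝ) ^ (999 / 1000 : ℝ) * (cP / 2 * (X : ℝ) ^ (1 / 1000 : ℝ)) :=
          mul_le_mul_of_nonneg_left h1 (by positivity)
      _ = cP * ((X : ℝ) ^ (999 / 1000 : ℝ) * (X : ℝ) ^ (1 / 1000 : ℝ)) := by ring
      _ = cP * X := by rw [← k1]
  have h6 := hTP X h4
  have h7 : ((range (X + 1)).filter (fun p => p.Prime ∧ Adm p)).card ≤
      ((range (X + 1)).filter (fun p => p.Prime ∧ Adm p ∧ p₀ ≤ p)).card + p₀ := by
    have h8 : (range (X + 1)).filter (fun p => p.Prime ∧ Adm p) ⊆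
        (range (X + 1)).filter (fun p => p.Prime ∧ Adm p ∧ p₀ ≤ p) ∪ range p₀ := by
      intro p hp
      rw [mem_filter] at hp
      rw [mem_union, mem_filter, mem_range]
      by_cases h : p₀ ≤ p
      · exact Or.inl ⟨mem_range.1 hp.1, hp.2.1, hp.2.2, h⟩
      · exact Or.inr (mem_range.2 (not_le.1 h))
    have h9 := (card_le_card h8).trans (card_union_le _ _)
    rwa [card_range] at h9
  have h8 : (((range (X + 1)).filter (fun p => p.Prime ∧ Adm p)).card : ℝ) ≤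
      (((range (X + 1)).filter (fun p => p.Prime ∧ Adm p ∧ p₀ ≤ p)).card : ℝ) + p₀ := by
    exact_mod_cast h7
  rw [Real.rpow_zero, mul_one] at h3
  linarith

end Pool.Agent.K9h5.M
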