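import Mathlib

/-!
# The second moment sieve with sums over pairs
-/

set_option autoImplicit false
set_option linter.all false

namespace Pool.Agent.K9h5.M

open Finset

/-- **The sieve.** -/
theorem sieve_big {r m : ℕ} (j : Fin r) (B A : Finset (Fin m → ℤ))
    (hAB : ∀ w ∈ B, ∀ b ∈ B, w - b ∈ A)
    (PP : Finset ℕ) (g : (Fin r → Fin m → ℤ) → ℕ → ℝ) (Lift : (Fin r → Fin m → ℤ) → Prop)
    [DecidablePred Lift]
    (Gd : (Fin r → Fin m → ℤ) → ℕ → Prop) [∀ n, DecidablePred (Gd n)] (c₀ : ℝ) (hc₀ : 0 < c₀)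
    (h1 : ∀ v, Lift v → ∀ p ∈ PP, c₀ ≤ g v p)
    (Q : ℕ → ℕ → ℝ) (hQ0 : ∀ p ∈ PP, ∀ p' ∈ PP, 0 ≤ Q p p')
    (h2 : ∀ n, ∀ p ∈ PP, ∀ p' ∈ PP, Gd n p → Gd n p' →
      |∑ a ∈ A, ∑ b ∈ B, g (Function.update n j (a + b)) p *
        g (Function.update n j (a + b)) p'| ≤ Q p p')
    (ε : ℝ) (hε : 0 ≤ ε)
    (h3 : ∀ p ∈ PP, (((Fintype.piFinset (fun _ : Fin r => B)).filter
      (fun n => ¬ Gd n p)).card : ℝ) ≤ ε * (B.card : ℝ) ^ r)
    (hPP : 0 < PP.card) (hB : 0 < B.card) :
    (((Fintype.piFinset (fun _ : Fin r => B)).filter Lift).card : ℝ) ≤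
      (B.card : ℝ) ^ r * (2 * ε + 4 * (∑ z ∈ PP ×ˢ PP, Q z.1 z.2) /
        (c₀ ^ 2 * (PP.card : ℝ) ^ 2 * (B.card : ℝ) ^ 2)) := by
  classical
  set NN : Finset (Fin r → Fin m → ℤ) := Fintype.piFinset (fun _ : Fin r => B) with hNN
  have hNNc : (NN.card : ℝ) = (B.card : ℝ) ^ r := by
    rw [hNN, Fintype.card_piFinset, prod_const, card_univ, Fintype.card_fin]
    push_cast
    rfl
  have hPr : (0 : ℝ) < PP.card := by exact_mod_cast hPP
  have hBr : (0 : ℝ) < B.card := by exact_mod_cast hB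
  set L : (Fin r → Fin m → ℤ) → Finset (Fin m → ℤ) := fun n =>
    B.filter (fun w => Lift (Function.update n j w)) with hL
  set SQ : ℝ := ∑ z ∈ PP ×ˢ PP, Q z.1 z.2 with hSQ
  have hSQ0 : 0 ≤ SQ := sum_nonneg fun z hz => by
    rw [mem_product] at hz
    exact hQ0 _ hz.1 _ hz.2
  -- double counting
  have e1 : (B.card : ℝ) * ((NN.filter Lift).card : ℝ) ≤ ∑ n ∈ NN, ((L n).card : ℝ) := by
    have h4 : B.card * (NN.filter Lift).card ≤ ∑ n ∈ NN, (L n).card := by
      rw [← card_product, ← card_sigma]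
      refine card_le_card_of_injOn (fun z => (⟨Function.update z.2 j z.1, z.2 j⟩ :
        Σ _ : (Fin r → Fin m → ℤ), (Fin m → ℤ))) ?_ ?_
      · rintro ⟨u, v⟩ hz
        rw [mem_coe, mem_product, mem_filter, hNN, Fintype.mem_piFinset] at hz
        rw [mem_coe, mem_sigma, hNN, Fintype.mem_piFinset, hL, mem_filter]
        refine ⟨?_, hz.2.1 j, ?_⟩
        · intro i
          simp only
          by_cases hi : i = j
          · subst hi
            rw [Function.update_self]
            exact hz.1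
          · rw [Function.update_of_ne hi]
            exact hz.2.1 i
        · simp only [Function.update_idem, Function.update_eq_self]
          exact hz.2.2
      · rintro ⟨u, v⟩ _ ⟨u', v'⟩ _ h
        simp only [Sigma.mk.injEq, heq_eq_eq] at h
        have h5 := congrFun h.1 j
        rw [Function.update_self, Function.update_self] at h5
        have h6 : v = v' := by
          funext i
          by_cases hi : i = j
          · subst hi; exact h.2
          · have := congrFun h.1 i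
            rwa [Function.update_of_ne hi, Function.update_of_ne hi] at this
        rw [h5, h6]
    exact_mod_cast h4
  -- the bad n
  set BN : Finset (Fin r → Fin m → ℤ) := NN.filter (fun n =>
    PP.card < 2 * (PP.filter (fun p => ¬ Gd n p)).card) with hBN
  have e2 : (BN.card : ℝ) ≤ 2 * ε * (B.card : ℝ) ^ r := by
    have h4 : (BN.card : ℝ) * PP.card ≤ 2 * ∑ n ∈ NN, ((PP.filter (fun p => ¬ Gd n p)).card : ℝ) := by
      rw [mul_sum]
      have h5 : (BN.card : ℝ) * PP.card ≤
          ∑ n ∈ BN, 2 * ((PP.filter (fun p => ¬ Gd n p)).card : ℝ) := by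
        rw [← nsmul_eq_mul, ← sum_const]
        refine sum_le_sum fun n hn => ?_
        have := (mem_filter.1 hn).2.le
        exact_mod_cast this
      refine h5.trans (sum_le_sum_of_subset_of_nonneg (filter_subset _ _) fun n _ _ => ?_)
      positivity
    have h5 : ∑ n ∈ NN, ((PP.filter (fun p => ¬ Gd n p)).card : ℝ) =
        ∑ p ∈ PP, ((NN.filter (fun n => ¬ Gd n p)).card : ℝ) := by
      have := sum_card_bipartiteAbove_eq_sum_card_bipartiteBelow (s := NN) (t := PP)
        (fun n p => ¬ Gd n p)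
      unfold bipartiteAbove bipartiteBelow at this
      exact_mod_cast this
    have h6 : ∑ p ∈ PP, ((NN.filter (fun n => ¬ Gd n p)).card : ℝ) ≤
        PP.card * (ε * (B.card : ℝ) ^ r) := by
      refine (sum_le_sum h3).trans ?_
      rw [sum_const, nsmul_eq_mul]
    rw [h5] at h4
    have h7 : (BN.card : ℝ) * PP.card ≤ (2 * ε * (B.card : ℝ) ^ r) * PP.card := by
      linarith
    exact le_of_mul_le_mul_right h7 hPr
  -- the main estimate
  have e3 : ∀ n ∈ NN, n ∉ BN → ((L n).card : ℝ) ≤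
      4 * SQ / (c₀ ^ 2 * (PP.card : ℝ) ^ 2 * B.card) := by
    intro n hn hnB
    set Pn := PP.filter (fun p => Gd n p) with hPn
    have h4 : (PP.card : ℝ) / 2 ≤ Pn.card := by
      have h5 : ¬ (PP.card < 2 * (PP.filter (fun p => ¬ Gd n p)).card) := fun h =>
        hnB (mem_filter.2 ⟨hn, h⟩)
      have h6 : Pn.card + (PP.filter (fun p => ¬ Gd n p)).card = PP.card :=
        card_filter_add_card_filter_not (s := PP) (fun p => Gd n p)
      have h7 : PP.card ≤ 2 * Pn.card := by omega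
      have h8 : (PP.card : ℝ) ≤ 2 * Pn.card := by exact_mod_cast h7
      linarith
    set F : (Fin m → ℤ) → ℝ := fun w => (∑ p ∈ Pn, g (Function.update n j w) p) ^ 2 with hF
    have h5 : ∀ w ∈ L n, (c₀ * (PP.card / 2)) ^ 2 ≤ F w := by
      intro w hw
      have hw' := (mem_filter.1 hw).2
      rw [hF]
      apply pow_le_pow_left₀ (by positivity)
      calc c₀ * (PP.card / 2) ≤ c₀ * Pn.card := mul_le_mul_of_nonneg_left h4 hc₀.le
        _ = ∑ p ∈ Pn, c₀ := by rw [sum_const, nsmul_eq_mul, mul_comm]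
        _ ≤ ∑ p ∈ Pn, g (Function.update n j w) p :=
          sum_le_sum fun p hp => h1 _ hw' p (mem_filter.1 hp).1
    have h6 : (B.card : ℝ) * ((L n).card * (c₀ * (PP.card / 2)) ^ 2) ≤
        ∑ b ∈ B, ∑ a ∈ A, F (a + b) := by
      rw [← nsmul_eq_mul, ← sum_const]
      refine sum_le_sum fun b hb => ?_
      have h7 : ((L n).card : ℝ) * (c₀ * (PP.card / 2)) ^ 2 ≤ ∑ w ∈ L n, F w := by
        rw [← nsmul_eq_mul, ← sum_const]
        exact sum_le_sum h5
      refine h7.trans ?_
      have h8 : ∑ w ∈ L n, F w = ∑ a ∈ (L n).image (fun w => w - b), F (a + b) := by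
        rw [sum_image (fun w _ w' _ h => sub_left_injective h)]
        refine sum_congr rfl fun w _ => ?_
        rw [sub_add_cancel]
      rw [h8]
      refine sum_le_sum_of_subset_of_nonneg ?_ fun a _ _ => sq_nonneg _
      intro a ha
      obtain ⟨w, hw, rfl⟩ := mem_image.1 ha
      exact hAB w (mem_filter.1 hw).1 b hb
    have h7 : ∑ b ∈ B, ∑ a ∈ A, F (a + b) ≤ SQ := by
      rw [sum_comm]
      have h8 : ∀ a b, F (a + b) = ∑ z ∈ Pn ×ˢ Pn,
          g (Function.update n j (a + b)) z.1 * g (Function.update n j (a + b)) z.2 := by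
        intro a b
        show (∑ p ∈ Pn, g (Function.update n j (a + b)) p) ^ 2 = _
        rw [sq, sum_mul_sum, sum_product]
      simp only [h8]
      have h9 : ∑ a ∈ A, ∑ b ∈ B, ∑ z ∈ Pn ×ˢ Pn,
          g (Function.update n j (a + b)) z.1 * g (Function.update n j (a + b)) z.2 =
          ∑ z ∈ Pn ×ˢ Pn, ∑ a ∈ A, ∑ b ∈ B,
          g (Function.update n j (a + b)) z.1 * g (Function.update n j (a + b)) z.2 := by
        have h10 : ∀ a ∈ A, ∑ b ∈ B, ∑ z ∈ Pn ×ˢ Pn,
            g (Function.update n j (a + b)) z.1 * g (Function.update n j (a + b)) z.2 =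
            ∑ z ∈ Pn ×ˢ Pn, ∑ b ∈ B,
            g (Function.update n j (a + b)) z.1 * g (Function.update n j (a + b)) z.2 :=
          fun a _ => sum_comm
        rw [sum_congr rfl h10]
        exact sum_comm
      rw [h9]
      have h10 : ∑ z ∈ Pn ×ˢ Pn, ∑ a ∈ A, ∑ b ∈ B,
          g (Function.update n j (a + b)) z.1 * g (Function.update n j (a + b)) z.2 ≤
          ∑ z ∈ Pn ×ˢ Pn, Q z.1 z.2 := by
        refine sum_le_sum fun z hz => ?_
        rw [mem_product] at hz
        obtain ⟨hz1, hz2⟩ := hz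
        rw [hPn, mem_filter] at hz1 hz2
        exact (le_abs_self _).trans (h2 n z.1 hz1.1 z.2 hz2.1 hz1.2 hz2.2)
      refine h10.trans (sum_le_sum_of_subset_of_nonneg ?_ ?_)
      · exact product_subset_product (filter_subset _ _) (filter_subset _ _)
      · intro z hz _
        rw [mem_product] at hz
        exact hQ0 _ hz.1 _ hz.2
    have h8 := h6.trans h7
    rw [le_div_iff₀ (by positivity)]
    nlinarith
  -- conclusion
  have e4 : ∑ n ∈ NN, ((L n).card : ℝ) ≤ (BN.card : ℝ) * B.card +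
      (B.card : ℝ) ^ r * (4 * SQ / (c₀ ^ 2 * (PP.card : ℝ) ^ 2 * B.card)) := by
    have h4 : ∀ n ∈ NN, ((L n).card : ℝ) ≤ (if n ∈ BN then (B.card : ℝ) else 0) +
        4 * SQ / (c₀ ^ 2 * (PP.card : ℝ) ^ 2 * B.card) := by
      intro n hn
      by_cases hb : n ∈ BN
      · rw [if_pos hb]
        have h5 : ((L n).card : ℝ) ≤ B.card := by
          exact_mod_cast card_le_card (filter_subset _ _)
        have h6 : 0 ≤ 4 * SQ / (c₀ ^ 2 * (PP.card : ℝ) ^ 2 * B.card) := by positivity
        linarith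
      · rw [if_neg hb, zero_add]
        exact e3 n hn hb
    refine (sum_le_sum h4).trans ?_
    rw [sum_add_distrib, ← sum_filter, sum_const, sum_const, nsmul_eq_mul, nsmul_eq_mul, hNNc]
    have h5 : NN.filter (fun n => n ∈ BN) = BN := by
      ext n
      rw [mem_filter]
      exact ⟨fun h => h.2, fun h => ⟨(mem_filter.1 h).1, h⟩⟩
    rw [h5]
  have e5 : (B.card : ℝ) * ((NN.filter Lift).card : ℝ) ≤ (B.card : ℝ) *
      ((B.card : ℝ) ^ r * (2 * ε + 4 * SQ /
        (c₀ ^ 2 * (PP.card : ℝ) ^ 2 * (B.card : ℝ) ^ 2))) := by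
    refine (e1.trans e4).trans ?_
    have h4 : (BN.card : ℝ) * B.card ≤ (2 * ε * (B.card : ℝ) ^ r) * B.card :=
      mul_le_mul_of_nonneg_right e2 hBr.le
    refine (add_le_add h4 le_rfl).trans (le_of_eq ?_)
    field_simp
  exact le_of_mul_le_mul_left e5 hBr

end Pool.Agent.K9h5.M
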