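import Mathlib
import Pool.Agent.K9h5.M.Est
import Pool.Agent.K9h5.M.Bil
import Pool.Agent.K9h5.M.Box
import Pool.Agent.K9h5.M.Bad
import Pool.Agent.K9h5.M.Sieve
import Pool.Agent.K9h5.N.Gen2

/-!
# The core theorem for boxes of large dimension
-/

set_option autoImplicit false
set_option linter.all false

namespace Pool.Agent.K9h5.M

open Pool.Agent.H901R3.MS WeierstrassCurve Finset Filter Pool.Agent.K9h5 Pool.Agent.K9h5.T
  Pool.Agent.K9h5.N

open Classical in
/-- the primes with small kernels -/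
theorem select {r : ℕ} (a b : Fin r → ℤ) (Gp : Fin r → Type) [∀ i, AddCommGroup (Gp i)]
    (hP : ∀ i, Gp i → ℝ) (Adm : ℕ → Prop)
    (rr : ∀ (p : ℕ) [Fact p.Prime] (i : Fin r), Gp i →+ Pt (a i : ZMod p) (b i : ZMod p))
    (hKill : ∀ i, Kill (hP i) Adm (fun p _ => rr p i)) (hr : 1 ≤ r)
    (m : ℕ) (e : ∀ i, Fin m → Gp i) (c : ℝ) (he : ∀ i, HBg (hP i) (e i) c)
    (P0 : Finset ℕ) (hP0 : 0 < P0.card)
    (hPP : ∀ p ∈ P0, ∃ hp : Fact p.Prime, Adm p ∧ ∀ i, Disc (a i : ZMod p) (b i : ZMod p))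
    (R : ℕ) (hR : 1 ≤ R) (μ : ℝ)
    (hμ : 2 * r * (1 + ((2 * R + 1 : ℕ) : ℝ) ^ m * (c * (R : ℝ) ^ 2 / Real.log 2) / P0.card) ≤ μ) :
    ∃ PP ⊆ P0, (P0.card : ℝ) / 2 ≤ PP.card ∧ ∀ p ∈ PP, ∀ i,
      (((Iz m R).filter (fun v => KP (fun p _ => rr p i) (e i) p v)).card : ℝ) ≤ μ := by
  have hPr : (0 : ℝ) < P0.card := by exact_mod_cast hP0
  have hrr : (1 : ℝ) ≤ r := by exact_mod_cast hr
  have hlog : 0 < Real.log 2 := Real.log_pos (by norm_num)
  have hc0 : 0 ≤ c := by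
    have := (he ⟨0, hr⟩).1
    linarith
  set Mi : Fin r → ℕ → ℝ := fun i p =>
    (((Iz m R).filter (fun v => KP (fun p _ => rr p i) (e i) p v)).card : ℝ) with hMi
  set S : ℝ := P0.card + ((2 * R + 1 : ℕ) : ℝ) ^ m * (c * (R : ℝ) ^ 2 / Real.log 2) with hS
  have hS0 : 0 < S := by
    have : 0 ≤ ((2 * R + 1 : ℕ) : ℝ) ^ m * (c * (R : ℝ) ^ 2 / Real.log 2) := by positivity
    linarith
  have h1 : ∀ i, ∑ p ∈ P0, Mi i p ≤ S := fun i =>
    kcount (hKill i) (he i) P0 (fun p hp => by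
      obtain ⟨hpf, hA, hD⟩ := hPP p hp
      exact ⟨hpf, hA, hD i⟩) R hR
  have hμS : 2 * r * S / P0.card ≤ μ := by
    refine le_trans (le_of_eq ?_) hμ
    rw [hS]
    field_simp
  refine ⟨P0.filter (fun p => ∀ i, Mi i p ≤ μ), filter_subset _ _, ?_, ?_⟩
  · have h2 : P0 ⊆ P0.filter (fun p => ∀ i, Mi i p ≤ μ) ∪
        univ.biUnion (fun i => P0.filter (fun p => μ < Mi i p)) := by
      intro p hp
      rw [mem_union, mem_filter, mem_biUnion]
      by_cases h : ∀ i, Mi i p ≤ μ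
      · exact Or.inl ⟨hp, h⟩
      · push Not at h
        obtain ⟨i, hi⟩ := h
        exact Or.inr ⟨i, mem_univ _, mem_filter.2 ⟨hp, hi⟩⟩
    have h3 := (card_le_card h2).trans ((card_union_le _ _).trans
      (Nat.add_le_add_left card_biUnion_le _))
    have h4 : (P0.card : ℝ) ≤ ((P0.filter (fun p => ∀ i, Mi i p ≤ μ)).card : ℝ) +
        ∑ i, ((P0.filter (fun p => μ < Mi i p)).card : ℝ) := by exact_mod_cast h3
    have h5 : ∀ i, ((P0.filter (fun p => μ < Mi i p)).card : ℝ) ≤ P0.card / (2 * r) := by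
      intro i
      have h6 : ((P0.filter (fun p => μ < Mi i p)).card : ℝ) * μ ≤ S := by
        rw [← nsmul_eq_mul, ← sum_const]
        refine (sum_le_sum fun p hp => (mem_filter.1 hp).2.le).trans ?_
        refine le_trans ?_ (h1 i)
        exact sum_le_sum_of_subset_of_nonneg (filter_subset _ _) fun p _ _ => Nat.cast_nonneg _
      have h7 : ((P0.filter (fun p => μ < Mi i p)).card : ℝ) * (2 * r * S / P0.card) ≤ S :=
        (mul_le_mul_of_nonneg_left hμS (Nat.cast_nonneg _)).trans h6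
      rw [le_div_iff₀ (by positivity)]
      have h8 : ((P0.filter (fun p => μ < Mi i p)).card : ℝ) * (2 * r * S / P0.card) =
          (((P0.filter (fun p => μ < Mi i p)).card : ℝ) * (2 * r) / P0.card) * S := by ring
      rw [h8] at h7
      have h9 : ((P0.filter (fun p => μ < Mi i p)).card : ℝ) * (2 * r) / P0.card ≤ 1 := by
        by_contra hcon
        push Not at hcon
        nlinarith
      rwa [div_le_one hPr] at h9
    have h6 : ∑ i : Fin r, ((P0.filter (fun p => μ < Mi i p)).card : ℝ) ≤ P0.card / 2 := by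
      refine (sum_le_sum fun i _ => h5 i).trans (le_of_eq ?_)
      rw [sum_const, card_univ, Fintype.card_fin, nsmul_eq_mul]
      field_simp
    linarith
  · intro p hp i
    exact (mem_filter.1 hp).2 i

end Pool.Agent.K9h5.M
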