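import Mathlib
import Pool.Agent.K9h5.M.Bil
import Pool.Agent.K9h5.M.Box

/-!
# The bound for a pair of primes
-/

set_option autoImplicit false
set_option linter.all false

namespace Pool.Agent.K9h5.M

open Finset

theorem num_pair (t κ x D C₁ Jp cA cH' cH cB : ℝ) (m : ℕ) (ht : 0 < t) (hκ : 0 ≤ κ) (hx : 0 < x)
    (hD : 0 ≤ D) (hC : 0 ≤ C₁) (hJ : 0 ≤ Jp) (hA0 : 0 ≤ cA) (hH'0 : 0 ≤ cH') (hH0 : 0 ≤ cH)
    (hB0 : 0 ≤ cB) (hA : cA ≤ 3 ^ m * t) (hH' : cH' ≤ 2 * x) (hH : cH ≤ 2 * x) (hB : cB ≤ C₁) :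
    cA * cH' * ((κ * t) * (t * (κ * t) * D + t * cB * Jp * cH)) ≤
      (t ^ 2 * κ * √(2 * 3 ^ m * x * D) +
        t * √t * (x * √(4 * C₁ * 3 ^ m * κ)) * √Jp) ^ 2 := by
  have h1 : cA * cH' ≤ (3 ^ m * t) * (2 * x) := mul_le_mul hA hH' hH'0 (by positivity)
  have h2 : t * cB * Jp * cH ≤ t * C₁ * Jp * (2 * x) := by
    apply mul_le_mul _ hH hH0 (by positivity)
    apply mul_le_mul_of_nonneg_right _ hJ
    exact mul_le_mul_of_nonneg_left hB ht.le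
  have h3 : (κ * t) * (t * (κ * t) * D + t * cB * Jp * cH) ≤
      (κ * t) * (t * (κ * t) * D + t * C₁ * Jp * (2 * x)) := by
    apply mul_le_mul_of_nonneg_left _ (by positivity)
    linarith
  have h4 : cA * cH' * ((κ * t) * (t * (κ * t) * D + t * cB * Jp * cH)) ≤
      (3 ^ m * t) * (2 * x) * ((κ * t) * (t * (κ * t) * D + t * C₁ * Jp * (2 * x))) :=
    mul_le_mul h1 h3 (by positivity) (by positivity)
  refine h4.trans ?_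
  have hα2 : √(2 * 3 ^ m * x * D) ^ 2 = 2 * 3 ^ m * x * D := Real.sq_sqrt (by positivity)
  have hβ2 : √(4 * C₁ * 3 ^ m * κ) ^ 2 = 4 * C₁ * 3 ^ m * κ := Real.sq_sqrt (by positivity)
  have ht2 : √t ^ 2 = t := Real.sq_sqrt ht.le
  have hJ2 : √Jp ^ 2 = Jp := Real.sq_sqrt hJ
  have e1 : (t ^ 2 * κ * √(2 * 3 ^ m * x * D)) ^ 2 = t ^ 4 * κ ^ 2 * (2 * 3 ^ m * x * D) := by
    rw [mul_pow, hα2]; ring
  have e2 : (t * √t * (x * √(4 * C₁ * 3 ^ m * κ)) * √Jp) ^ 2 =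
      t ^ 2 * t * (x ^ 2 * (4 * C₁ * 3 ^ m * κ)) * Jp := by
    rw [mul_pow, mul_pow, mul_pow t, mul_pow x, ht2, hβ2, hJ2]
  have h5 : (3 ^ m * t) * (2 * x) * ((κ * t) * (t * (κ * t) * D + t * C₁ * Jp * (2 * x))) =
      (t ^ 2 * κ * √(2 * 3 ^ m * x * D)) ^ 2 +
        (t * √t * (x * √(4 * C₁ * 3 ^ m * κ)) * √Jp) ^ 2 := by
    rw [e1, e2]; ring
  rw [h5]
  have h6 : 0 ≤ t ^ 2 * κ * √(2 * 3 ^ m * x * D) := by positivity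
  have h7 : 0 ≤ t * √t * (x * √(4 * C₁ * 3 ^ m * κ)) * √Jp := by positivity
  generalize t ^ 2 * κ * √(2 * 3 ^ m * x * D) = u at h6
  generalize t * √t * (x * √(4 * C₁ * 3 ^ m * κ)) * √Jp = v at h7
  nlinarith

theorem Iz_card_le (m T : ℕ) (hT : 1 ≤ T) : ((Iz m T).card : ℝ) ≤ 3 ^ m * (T : ℝ) ^ m := by
  have hTr : (1 : ℝ) ≤ T := by exact_mod_cast hT
  rw [Iz_card, ← mul_pow]
  push_cast
  apply pow_le_pow_left₀ (by positivity)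
  linarith

open Classical in
/-- **The bound for a pair.** -/
theorem pairQ {H H' : Type} [AddCommGroup H] [Fintype H] [AddCommGroup H'] [Fintype H']
    (m T : ℕ) (hT : 1 ≤ T) (φ : (Fin m → ℤ) →+ H) (φ' : (Fin m → ℤ) →+ H') (x₀ : H) (x₀' : H')
    (G : H → ℝ) (G' : H' → ℝ) (hG : ∀ u, |G u| ≤ 1) (hG' : ∀ u, |G' u| ≤ 1) (C₁ : ℝ)
    (hC₁ : 0 ≤ C₁) (Bd : Finset H) (hBd : 3 / 2 * (Bd.card : ℝ) ≤ C₁) (p : ℕ)
    (hcor : ∀ h h', h ∉ Bd → h' ∉ Bd → h + h' ∉ Bd → h - h' ∉ Bd →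
      |∑ u, G u * G (u + h) * G (u + h') * G (u + (h + h'))| ≤ C₁ * √p)
    (x : ℝ) (hx : 1 ≤ x) (hpx : (p : ℝ) ≤ x) (hH : (Fintype.card H : ℝ) ≤ 2 * x)
    (hH' : (Fintype.card H' : ℝ) ≤ 2 * x) (κ : ℝ)
    (hA : ∀ h, (((Iz m T).filter (fun a => φ a = h)).card : ℝ) ≤ κ * (T : ℝ) ^ m)
    (hB : ∀ w, (((Iz0 m T).filter (fun b => φ' b = w)).card : ℝ) ≤ κ * (T : ℝ) ^ m) (Jp : ℝ)
    (hJ : ∀ h w, (((Iz0 m T).filter (fun b => φ b = h ∧ φ' b = w)).card : ℝ) ≤ Jp) :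
    |∑ a ∈ Iz m T, ∑ b ∈ Iz0 m T, G (x₀ + φ (a + b)) * G' (x₀' + φ' (a + b))| ≤
      ((T : ℝ) ^ m) ^ 2 * κ * √(2 * 3 ^ m * x * √(2 * x * (C₁ * √x + 2 * C₁))) +
        (T : ℝ) ^ m * √((T : ℝ) ^ m) * (x * √(4 * C₁ * 3 ^ m * κ)) * √Jp := by
  have hTr : (1 : ℝ) ≤ T := by exact_mod_cast hT
  have ht0 : (0 : ℝ) < (T : ℝ) ^ m := by positivity
  have hx0 : 0 < x := by linarith
  have hκ0 : 0 ≤ κ := by
    have h1 := (Nat.cast_nonneg _).trans (hA 0)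
    by_contra h
    push Not at h
    nlinarith
  have hJ0 : 0 ≤ Jp := (Nat.cast_nonneg _).trans (hJ 0 0)
  have hD0 : 0 ≤ √(2 * x * (C₁ * √x + 2 * C₁)) := Real.sqrt_nonneg _
  have hbil := bil φ φ' x₀ x₀' G G' hG hG' Bd (√(2 * x * (C₁ * √x + 2 * C₁))) hD0 (by
    intro h hh
    have h1 := corr2 G hG Bd (C₁ * √p) (by positivity) hcor h hh
    apply Real.abs_le_sqrt
    refine h1.trans ?_
    have h2 : √(p : ℝ) ≤ √x := Real.sqrt_le_sqrt hpx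
    have h3 : C₁ * √p + 3 * Bd.card ≤ C₁ * √x + 2 * C₁ := by
      have := mul_le_mul_of_nonneg_left h2 hC₁
      linarith
    exact mul_le_mul hH h3 (by positivity) (by linarith)) (Iz m T) (Iz0 m T) _ _ Jp hA hB hJ
  apply abs_le_of_sq_le_sq _ (by positivity)
  refine hbil.trans ?_
  have hBc : ((Iz0 m T).card : ℝ) = (T : ℝ) ^ m := by rw [Iz0_card]; push_cast; rfl
  rw [hBc]
  refine num_pair ((T : ℝ) ^ m) κ x _ C₁ Jp _ _ _ _ m ht0 hκ0 hx0 hD0 hC₁ hJ0 (Nat.cast_nonneg _)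
    (Nat.cast_nonneg _) (Nat.cast_nonneg _) (Nat.cast_nonneg _) (Iz_card_le m T hT) hH' hH ?_
  have : (0 : ℝ) ≤ Bd.card := Nat.cast_nonneg _
  linarith

/-- the sum over the pairs -/
theorem sum_Q (PP : Finset ℕ) (J : ℕ → ℕ → ℝ) (hJ0 : ∀ p p', 0 ≤ J p p') (m T : ℕ) (hT : 1 ≤ T)
    (c' : ℝ) (hc' : 0 ≤ c')
    (hJs : ∑ z ∈ PP ×ˢ PP, J z.1 z.2 ≤ (PP.card : ℝ) ^ 2 + ((2 * T + 1 : ℕ) : ℝ) ^ m * c' ^ 2)
    (hPP : 0 < PP.card) (κ α β : ℝ) (hκ : 0 ≤ κ) (hα : 0 ≤ α) (hβ : 0 ≤ β) (c₀ : ℝ)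
    (hc₀ : 0 < c₀) :
    4 * (∑ z ∈ PP ×ˢ PP, (((T : ℝ) ^ m) ^ 2 * κ * α +
      (T : ℝ) ^ m * √((T : ℝ) ^ m) * β * √(J z.1 z.2))) /
        (c₀ ^ 2 * (PP.card : ℝ) ^ 2 * ((T : ℝ) ^ m) ^ 2) ≤
      4 / c₀ ^ 2 * (κ * α + β * (1 / √((T : ℝ) ^ m) + 3 ^ m * c' / PP.card)) := by
  have hPr : (0 : ℝ) < PP.card := by exact_mod_cast hPP
  have hTr : (1 : ℝ) ≤ T := by exact_mod_cast hT
  obtain ⟨t, ht⟩ : ∃ t : ℝ, t = (T : ℝ) ^ m := ⟨_, rfl⟩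
  have ht0 : 0 < t := by rw [ht]; positivity
  have h3m : (1 : ℝ) ≤ 3 ^ m := one_le_pow₀ (by norm_num)
  have h3 : ((2 * T + 1 : ℕ) : ℝ) ^ m ≤ 3 ^ m * t := by
    rw [ht, ← mul_pow]
    push_cast
    apply pow_le_pow_left₀ (by positivity)
    linarith
  rw [← ht]
  have hst : 0 < √t := Real.sqrt_pos.2 ht0
  have ht2 : √t ^ 2 = t := Real.sq_sqrt ht0.le
  have hJs2 : ∑ z ∈ PP ×ˢ PP, √(J z.1 z.2) ≤ PP.card * (PP.card + 3 ^ m * √t * c') := by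
    have h1 := sum_mul_sq_le_sq_mul_sq (PP ×ˢ PP) (fun _ => (1 : ℝ)) (fun z => √(J z.1 z.2))
    simp only [one_mul, one_pow, sum_const, card_product, nsmul_eq_mul, mul_one] at h1
    have h2 : ∑ z ∈ PP ×ˢ PP, √(J z.1 z.2) ^ 2 = ∑ z ∈ PP ×ˢ PP, J z.1 z.2 :=
      sum_congr rfl fun z _ => Real.sq_sqrt (hJ0 _ _)
    rw [h2] at h1
    have h4 : ((2 * T + 1 : ℕ) : ℝ) ^ m * c' ^ 2 ≤ (3 ^ m * √t * c') ^ 2 := by
      calc ((2 * T + 1 : ℕ) : ℝ) ^ m * c' ^ 2 ≤ 3 ^ m * t * c' ^ 2 :=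
            mul_le_mul_of_nonneg_right h3 (by positivity)
        _ ≤ 3 ^ m * (3 ^ m * t * c' ^ 2) := le_mul_of_one_le_left (by positivity) h3m
        _ = (3 ^ m * √t * c') ^ 2 := by
          rw [mul_pow, mul_pow, ht2]; ring
    have h5 : (PP.card : ℝ) ^ 2 + (3 ^ m * √t * c') ^ 2 ≤ (PP.card + 3 ^ m * √t * c') ^ 2 := by
      have : 0 ≤ 3 ^ m * √t * c' := by positivity
      nlinarith
    refine (le_abs_self _).trans (abs_le_of_sq_le_sq ?_ (by positivity))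
    push_cast at h1
    calc (∑ z ∈ PP ×ˢ PP, √(J z.1 z.2)) ^ 2 ≤
        (PP.card * PP.card) * ∑ z ∈ PP ×ˢ PP, J z.1 z.2 := h1
      _ ≤ (PP.card * PP.card) * (PP.card + 3 ^ m * √t * c') ^ 2 := by
        apply mul_le_mul_of_nonneg_left _ (by positivity)
        push_cast at hJs h4
        linarith
      _ = (PP.card * (PP.card + 3 ^ m * √t * c')) ^ 2 := by ring
  have hQs : ∑ z ∈ PP ×ˢ PP, (t ^ 2 * κ * α + t * √t * β * √(J z.1 z.2)) ≤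
      (PP.card : ℝ) ^ 2 * (t ^ 2 * κ * α) +
      t * √t * β * (PP.card * (PP.card + 3 ^ m * √t * c')) := by
    rw [sum_add_distrib, sum_const, card_product, nsmul_eq_mul, ← mul_sum]
    refine add_le_add (le_of_eq ?_) (mul_le_mul_of_nonneg_left hJs2 (by positivity))
    push_cast
    ring
  have h1 : 4 * ∑ z ∈ PP ×ˢ PP, (t ^ 2 * κ * α + t * √t * β * √(J z.1 z.2)) ≤
      4 * ((PP.card : ℝ) ^ 2 * (t ^ 2 * κ * α) +
      t * √t * β * (PP.card * (PP.card + 3 ^ m * √t * c'))) := by linarith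
  refine (div_le_div_of_nonneg_right h1 (by positivity)).trans (le_of_eq ?_)
  generalize √t = s at *
  subst ht2
  generalize (PP.card : ℝ) = w at *
  field_simp

end Pool.Agent.K9h5.M
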