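import Mathlib
import Pool.Agent.K9h5.M.Core
import Pool.Agent.K9h5.M.Pair

/-!
# The core theorem for boxes of large dimension: fixed parameters
-/

set_option autoImplicit false
set_option linter.all false

namespace Pool.Agent.K9h5.M

open Pool.Agent.H901R3.MS WeierstrassCurve Finset Filter Pool.Agent.K9h5 Pool.Agent.K9h5.T
  Pool.Agent.K9h5.N

open Classical in
/-- the parameters which are not good -/
theorem good_cnt {r : ℕ} (a b : Fin r → ℤ) (Gp : Fin r → Type) [∀ i, AddCommGroup (Gp i)]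
    (j : Fin r) (bp : MvPolynomial (Fin r × Fin 3) ℤ) (C₁ : ℝ) (hC₁ : 0 ≤ C₁) (p : ℕ)
    [Fact p.Prime] (rp : ∀ i : Fin r, Gp i →+ Pt (a i : ZMod p) (b i : ZMod p))
    (hsz : ∀ S : ∀ i, Finset (Pt (a i : ZMod p) (b i : ZMod p)),
        ((badT a b p bp S).card : ℝ) ≤ C₁ * bdT a b p S)
    (m : ℕ) (e : ∀ i, Fin m → Gp i) (T : ℕ) (hT : 1 ≤ T) (τ : ∀ i, Gp i) (κ : ℝ)
    (hκ : 0 ≤ κ)
    (hfib : ∀ (i : Fin r) (h : Pt (a i : ZMod p) (b i : ZMod p)),
      (((Iz0 m T).filter (fun v => lin (fun k => rp i (e i k)) v = h)).card : ℝ) ≤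
        κ * (T : ℝ) ^ m) :
    (((Fintype.piFinset (fun _ : Fin r => Iz0 m T)).filter (fun n =>
      ¬ Good a b j bp p (fun i => rp i (τ i + lin (e i) (n i))))).card : ℝ) ≤
      C₁ * r * κ * ((T : ℝ) ^ m) ^ r := by
  have hr1 : 1 ≤ r := by have := j.2; omega
  have ht0 : (0 : ℝ) < (T : ℝ) ^ m := by positivity
  have h1 := bad_count (β := fun i => Pt (a i : ZMod p) (b i : ZMod p)) (Iz0 m T)
    (fun i v => rp i (τ i + lin (e i) v))
    (fun P => evF bp (fun i => rep (P i)) = 0) C₁ hC₁ (by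
      intro S
      have h2 := hsz S
      unfold badT bdT at h2
      exact h2) ⌊κ * (T : ℝ) ^ m⌋₊ (by
      intro i h
      apply Nat.le_floor
      have h2 := hfib i (h - rp i (τ i))
      refine le_trans (le_of_eq ?_) h2
      congr 1
      congr 1
      apply filter_congr
      intro v _
      rw [map_add, map_lin, eq_sub_iff_add_eq, add_comm])
  have h2 : (Fintype.piFinset (fun _ : Fin r => Iz0 m T)).filter (fun n =>
      ¬ Good a b j bp p (fun i => rp i (τ i + lin (e i) (n i)))) ⊆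
      (Fintype.piFinset (fun _ : Fin r => Iz0 m T)).filter (fun n =>
        evF bp (fun i => rep (rp i (τ i + lin (e i) (n i)))) = 0) := by
    intro n hn
    rw [mem_filter] at hn ⊢
    refine ⟨hn.1, ?_⟩
    by_contra hne
    apply hn.2
    refine ⟨rp j (τ j + lin (e j) (n j)), ?_⟩
    intro h0
    apply hne
    rw [← h0]
    congr 1
    funext i
    by_cases hi : i = j
    · subst hi
      rw [Function.update_self]
    · rw [Function.update_of_ne hi]
  have h3 : (((Fintype.piFinset (fun _ : Fin r => Iz0 m T)).filter (fun n =>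
      ¬ Good a b j bp p (fun i => rp i (τ i + lin (e i) (n i))))).card : ℝ) ≤
      C₁ * ((r * (⌊κ * (T : ℝ) ^ m⌋₊ * (Iz0 m T).card ^ (r - 1)) : ℕ) : ℝ) := by
    refine le_trans ?_ h1
    exact_mod_cast card_le_card h2
  refine h3.trans ?_
  rw [Iz0_card]
  push_cast
  have h4 : (⌊κ * (T : ℝ) ^ m⌋₊ : ℝ) ≤ κ * (T : ℝ) ^ m := Nat.floor_le (by positivity)
  have h5 : ((T : ℝ) ^ m) ^ r = (T : ℝ) ^ m * ((T : ℝ) ^ m) ^ (r - 1) := by
    rw [← pow_succ']
    congr 1
    omega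
  rw [h5]
  calc C₁ * (r * (⌊κ * (T : ℝ) ^ m⌋₊ * ((T : ℝ) ^ m) ^ (r - 1))) ≤
      C₁ * (r * ((κ * (T : ℝ) ^ m) * ((T : ℝ) ^ m) ^ (r - 1))) := by gcongr
    _ = C₁ * r * κ * ((T : ℝ) ^ m * ((T : ℝ) ^ m) ^ (r - 1)) := by ring

open Classical in
/-- the fibres of the reductions -/
theorem fib_cnt {a b : ℤ} {Gp : Type} [AddCommGroup Gp]
    (rr : ∀ (p : ℕ) [Fact p.Prime], Gp →+ Pt (a : ZMod p) (b : ZMod p)) {m : ℕ} (e : Fin m → Gp)
    (p : ℕ) [hp : Fact p.Prime] (R : ℕ) (μ : ℝ)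
    (hμ : (((Iz m R).filter (fun v => KP rr e p v)).card : ℝ) ≤ μ) (A : Finset (Fin m → ℤ))
    (hA : ∀ u ∈ A, ∀ v ∈ A, u - v ∈ Iz m R) (h : Pt (a : ZMod p) (b : ZMod p)) :
    ((A.filter (fun v => lin (fun k => rr p (e k)) v = h)).card : ℝ) ≤ μ := by
  refine le_trans ?_ hμ
  have h1 := fib_le (lin (fun k => rr p (e k))) A (Iz m R) hA h
  have h2 : (Iz m R).filter (fun v => lin (fun k => rr p (e k)) v = 0) ⊆
      (Iz m R).filter (fun v => KP rr e p v) := by
    intro v hv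
    rw [mem_filter] at hv ⊢
    refine ⟨hv.1, hp, ?_⟩
    rw [map_lin]
    exact hv.2
  exact_mod_cast h1.trans (card_le_card h2)

open Classical in
/-- the joint fibres -/
theorem joint_cnt {a b : ℤ} {Gp : Type} [AddCommGroup Gp]
    (rr : ∀ (p : ℕ) [Fact p.Prime], Gp →+ Pt (a : ZMod p) (b : ZMod p)) {m : ℕ} (e : Fin m → Gp)
    (p p' : ℕ) [hp : Fact p.Prime] [hp' : Fact p'.Prime] (R : ℕ) (A : Finset (Fin m → ℤ))
    (hA : ∀ u ∈ A, ∀ v ∈ A, u - v ∈ Iz m R) (h : Pt (a : ZMod p) (b : ZMod p))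
    (w : Pt (a : ZMod p') (b : ZMod p')) :
    ((A.filter (fun v => lin (fun k => rr p (e k)) v = h ∧
      lin (fun k => rr p' (e k)) v = w)).card : ℝ) ≤
      (((Iz m R).filter (fun v => KP rr e p v ∧ KP rr e p' v)).card : ℝ) := by
  have h1 := fib_le ((lin (fun k => rr p (e k))).prod (lin (fun k => rr p' (e k))))
    A (Iz m R) hA (h, w)
  have h2 : A.filter (fun v => lin (fun k => rr p (e k)) v = h ∧
      lin (fun k => rr p' (e k)) v = w) ⊆ A.filter (fun v =>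
      ((lin (fun k => rr p (e k))).prod (lin (fun k => rr p' (e k)))) v = (h, w)) := by
    intro v hv
    rw [mem_filter] at hv ⊢
    exact ⟨hv.1, Prod.ext hv.2.1 hv.2.2⟩
  have h3 : (Iz m R).filter (fun v =>
      ((lin (fun k => rr p (e k))).prod (lin (fun k => rr p' (e k)))) v = 0) ⊆
      (Iz m R).filter (fun v => KP rr e p v ∧ KP rr e p' v) := by
    intro v hv
    rw [mem_filter] at hv ⊢
    refine ⟨hv.1, ⟨hp, ?_⟩, ⟨hp', ?_⟩⟩
    · rw [map_lin]
      exact congrArg Prod.fst hv.2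
    · rw [map_lin]
      exact congrArg Prod.snd hv.2
  exact_mod_cast (card_le_card h2).trans (h1.trans (card_le_card h3))

end Pool.Agent.K9h5.M
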