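import Mathlib
import Pool.Agent.K9h5.M.Core2

/-!
# The core theorem for boxes of large dimension: assembly for fixed parameters
-/

set_option autoImplicit false
set_option linter.all false

namespace Pool.Agent.K9h5.M

open Pool.Agent.H901R3.MS WeierstrassCurve Finset Filter Pool.Agent.K9h5 Pool.Agent.K9h5.T
  Pool.Agent.K9h5.N

open Classical in
theorem core_fixed {r : ℕ} (a b : Fin r → ℤ) (Gp : Fin r → Type) [∀ i, AddCommGroup (Gp i)]
    (hP : ∀ i, Gp i → ℝ) (Adm : ℕ → Prop)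
    (rr : ∀ (p : ℕ) [Fact p.Prime] (i : Fin r), Gp i →+ Pt (a i : ZMod p) (b i : ZMod p))
    (hKill : ∀ i, Kill (hP i) Adm (fun p _ => rr p i)) (j : Fin r)
    (Lift : (∀ i, Gp i) → Prop)
    (G : ∀ (p : ℕ) [Fact p.Prime], (∀ i, Pt (a i : ZMod p) (b i : ZMod p)) →
      Pt (a j : ZMod p) (b j : ZMod p) → ℝ)
    (hG1 : ∀ (p : ℕ) [Fact p.Prime] (P : ∀ i, Pt (a i : ZMod p) (b i : ZMod p))
      (u : Pt (a j : ZMod p) (b j : ZMod p)), |G p P u| ≤ 1)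
    (hGcg : ∀ (p : ℕ) [Fact p.Prime] (P P' : ∀ i, Pt (a i : ZMod p) (b i : ZMod p)),
      (∀ i, i ≠ j → P i = P' i) → G p P = G p P')
    (bp : MvPolynomial (Fin r × Fin 3) ℤ) (C₁ : ℝ) (p₀ : ℕ) (hC₁ : 0 ≤ C₁)
    (hloc : ∀ (p : ℕ) [Fact p.Prime],
      p₀ ≤ p → (∀ i, Disc (a i : ZMod p) (b i : ZMod p)) ∧ p ≠ 2 ∧
      (∀ S : ∀ i, Finset (Pt (a i : ZMod p) (b i : ZMod p)),
        ((badT a b p bp S).card : ℝ) ≤ C₁ * bdT a b p S) ∧
      (∀ P : ∀ i, Pt (a i : ZMod p) (b i : ZMod p), Good a b j bp p P →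
        ∃ Bd : Finset (Pt (a j : ZMod p) (b j : ZMod p)), 3 / 2 * (Bd.card : ℝ) ≤ C₁ ∧
          ∀ h h', h ∉ Bd → h' ∉ Bd → h + h' ∉ Bd → h - h' ∉ Bd →
            |∑ u : Pt (a j : ZMod p) (b j : ZMod p), G p P u * G p P (u + h) *
              G p P (u + h') * G p P (u + (h + h'))| ≤ C₁ * √p))
    (c₀ : ℝ) (hc₀ : 0 < c₀)
    (hlift : ∀ (p : ℕ) [Fact p.Prime], p₀ ≤ p → Adm p → ∀ P, Lift P →
      c₀ ≤ G p (fun i => rr p i (P i)) (rr p j (P j)))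
    (m : ℕ) (e : ∀ i, Fin m → Gp i) (c : ℝ) (he : ∀ i, HBg (hP i) (e i) c)
    (T : ℕ) (hT : 1 ≤ T) (τ : ∀ i, Gp i) (x : ℝ) (hx : 1 ≤ x) (PP : Finset ℕ)
    (hPP : ∀ p ∈ PP, ∃ hp : Fact p.Prime, Adm p ∧ p₀ ≤ p ∧ (p : ℝ) ≤ x ∧
      ∀ i, (Fintype.card (Pt (a i : ZMod p) (b i : ZMod p)) : ℝ) ≤ 2 * x)
    (hPP0 : 0 < PP.card) (κ : ℝ)
    (hμ : ∀ p ∈ PP, ∀ i, (((Iz m (2 * T)).filter
      (fun v => KP (fun p _ => rr p i) (e i) p v)).card : ℝ) ≤ κ * (T : ℝ) ^ m) :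
    (((Fintype.piFinset (fun _ : Fin r => Iz0 m T)).filter
      (fun v => Lift (fun i => τ i + lin (e i) (v i)))).card : ℝ) ≤
      ((T : ℝ) ^ m) ^ r * (2 * (C₁ * r * κ) + 4 / c₀ ^ 2 *
        (κ * √(2 * 3 ^ m * x * √(2 * x * (C₁ * √x + 2 * C₁))) +
          x * √(4 * C₁ * 3 ^ m * κ) * (1 / √((T : ℝ) ^ m) +
            3 ^ m * (c * (T : ℝ) ^ 2 / Real.log 2) / PP.card))) := by
  have hTr : (1 : ℝ) ≤ T := by exact_mod_cast hT
  have ht0 : (0 : ℝ) < (T : ℝ) ^ m := by positivity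
  have hx0 : 0 < x := by linarith
  have hlog : 0 < Real.log 2 := Real.log_pos (by norm_num)
  have hc1 : 1 ≤ c := (he j).1
  have hPr : (0 : ℝ) < PP.card := by exact_mod_cast hPP0
  obtain ⟨q, hq⟩ := card_pos.1 hPP0
  have hκ0 : 0 ≤ κ := by
    have h1 := (Nat.cast_nonneg _).trans (hμ q hq j)
    by_contra h
    push Not at h
    nlinarith
  have hA2 : ∀ u ∈ Iz m T, ∀ v ∈ Iz m T, u - v ∈ Iz m (2 * T) := fun u hu v hv => sub_Iz hu hv
  have hB1 : ∀ u ∈ Iz0 m T, ∀ v ∈ Iz0 m T, u - v ∈ Iz m T := fun u hu v hv => sub_Iz0 hu hv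
  have hB2 : ∀ u ∈ Iz0 m T, ∀ v ∈ Iz0 m T, u - v ∈ Iz m (2 * T) := fun u hu v hv =>
    Iz_mono (by omega) (sub_Iz0 hu hv)
  have hBc : ((Iz0 m T).card : ℝ) = (T : ℝ) ^ m := by rw [Iz0_card]; push_cast; rfl
  -- the data of the sieve
  obtain ⟨J, hJ⟩ : ∃ J : ℕ → ℕ → ℝ, ∀ p p', J p p' = (((Iz m T).filter (fun v =>
    KP (fun p _ => rr p j) (e j) p v ∧ KP (fun p _ => rr p j) (e j) p' v)).card : ℝ) :=
    ⟨_, fun p p' => rfl⟩
  have hJ0 : ∀ p p', 0 ≤ J p p' := fun p p' => by rw [hJ]; exact Nat.cast_nonneg _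
  obtain ⟨g, hg⟩ : ∃ g : (Fin r → Fin m → ℤ) → ℕ → ℝ, ∀ v (q : ℕ) (hq : Fact q.Prime), g v q =
      G q (fun i => rr q i (τ i + lin (e i) (v i))) (rr q j (τ j + lin (e j) (v j))) := by
    refine ⟨fun v p => if h : p.Prime then
      (haveI := Fact.mk h
       G p (fun i => rr p i (τ i + lin (e i) (v i))) (rr p j (τ j + lin (e j) (v j)))) else 0, ?_⟩
    intro v q hq
    simp only
    rw [dif_pos hq.out]
  obtain ⟨Gd, hGd⟩ : ∃ Gd : (Fin r → Fin m → ℤ) → ℕ → Prop, ∀ n (q : ℕ) (hq : Fact q.Prime),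
      Gd n q ↔ Good a b j bp q (fun i => rr q i (τ i + lin (e i) (n i))) := by
    refine ⟨fun n p => ∃ hp : Fact p.Prime,
      Good a b j bp p (fun i => @rr p hp i (τ i + lin (e i) (n i))), ?_⟩
    intro n q hq
    exact ⟨fun h => h.2, fun h => ⟨hq, h⟩⟩
  have hgv : ∀ (q : ℕ) (hq : Fact q.Prime) (n : Fin r → Fin m → ℤ) (w : Fin m → ℤ),
      g (Function.update n j w) q =
      G q (fun i => rr q i (τ i + lin (e i) (n i)))
        (rr q j (τ j) + lin (fun k => rr q j (e j k)) w) := by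
    intro q hq n w
    rw [hg _ _ hq]
    have h1 : G q (fun i => rr q i (τ i + lin (e i) (Function.update n j w i))) =
        G q (fun i => rr q i (τ i + lin (e i) (n i))) := by
      apply hGcg
      intro i hi
      rw [Function.update_of_ne hi]
    have h2 : rr q j (τ j + lin (e j) (Function.update n j w j)) =
        rr q j (τ j) + lin (fun k => rr q j (e j k)) w := by
      rw [Function.update_self, map_add, map_lin]
    rw [h1, h2]
  obtain ⟨α, hα⟩ : ∃ α : ℝ, α = √(2 * 3 ^ m * x * √(2 * x * (C₁ * √x + 2 * C₁))) := ⟨_, rfl⟩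
  obtain ⟨β, hβ⟩ : ∃ β : ℝ, β = x * √(4 * C₁ * 3 ^ m * κ) := ⟨_, rfl⟩
  have hα0 : 0 ≤ α := by rw [hα]; exact Real.sqrt_nonneg _
  have hβ0 : 0 ≤ β := by rw [hβ]; exact mul_nonneg hx0.le (Real.sqrt_nonneg _)
  have hs := sieve_big j (Iz0 m T) (Iz m T) hB1 PP g
    (fun v => Lift (fun i => τ i + lin (e i) (v i))) Gd c₀ hc₀ (by
      intro v hv p hp
      obtain ⟨hpf, hA, hpp, _, _⟩ := hPP p hp
      rw [hg v p hpf]
      exact hlift p hpp hA _ hv)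
    (fun p p' => ((T : ℝ) ^ m) ^ 2 * κ * α + (T : ℝ) ^ m * √((T : ℝ) ^ m) * β * √(J p p'))
    (fun p _ p' _ => by positivity) (by
      intro n p hp p' hp' hGp hGp'
      obtain ⟨hpf, hA, hpp, hpx, hpc⟩ := hPP p hp
      obtain ⟨hpf', hA', hpp', hpx', hpc'⟩ := hPP p' hp'
      rw [hGd n p hpf] at hGp
      obtain ⟨Bd, hBd, hcor⟩ := (hloc p hpp).2.2.2 _ hGp
      have h1 := pairQ m T hT (lin (fun k => rr p j (e j k))) (lin (fun k => rr p' j (e j k)))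
        (rr p j (τ j)) (rr p' j (τ j)) (G p (fun i => rr p i (τ i + lin (e i) (n i))))
        (G p' (fun i => rr p' i (τ i + lin (e i) (n i)))) (hG1 p _) (hG1 p' _) C₁ hC₁ Bd hBd p
        hcor x hx hpx (hpc j) (hpc' j) κ
        (fun h => fib_cnt (fun p _ => rr p j) (e j) p (2 * T) _ (hμ p hp j) _ hA2 h)
        (fun h => fib_cnt (fun p _ => rr p j) (e j) p' (2 * T) _ (hμ p' hp' j) _ hB2 h)
        (J p p') (fun h w => by
          rw [hJ]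
          exact joint_cnt (fun p _ => rr p j) (e j) p p' T _ hB1 h w)
      rw [← hα, ← hβ] at h1
      refine le_trans (le_of_eq ?_) h1
      congr 1
      refine sum_congr rfl fun v _ => sum_congr rfl fun w _ => ?_
      rw [hgv p hpf, hgv p' hpf']) (C₁ * r * κ) (by positivity) (by
      intro p hp
      obtain ⟨hpf, hA, hpp, hpx, hpc⟩ := hPP p hp
      have h1 := good_cnt a b Gp j bp C₁ hC₁ p (fun i => rr p i) (hloc p hpp).2.2.1 m e T hT τ κ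
        hκ0 (fun i h => fib_cnt (fun p _ => rr p i) (e i) p (2 * T) _ (hμ p hp i) _ hB2 h)
      rw [hBc]
      refine le_trans (le_of_eq ?_) h1
      congr 1
      congr 1
      apply filter_congr
      intro n _
      rw [hGd n p hpf]) hPP0 (by
      rw [Iz0_card]
      positivity)
  rw [hBc] at hs
  have hJsum : ∑ z ∈ PP ×ˢ PP, J z.1 z.2 ≤ (PP.card : ℝ) ^ 2 +
      ((2 * T + 1 : ℕ) : ℝ) ^ m * (c * (T : ℝ) ^ 2 / Real.log 2) ^ 2 := by
    simp only [hJ]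
    exact jcount (hKill j) (he j) PP (fun p hp => by
      obtain ⟨hpf, hA, hpp, _, _⟩ := hPP p hp
      exact ⟨hpf, hA, (hloc p hpp).1 j⟩) T hT
  have h2 := sum_Q PP J hJ0 m T hT (c * (T : ℝ) ^ 2 / Real.log 2) (by positivity) hJsum hPP0 κ α β
    hκ0 hα0 hβ0 c₀ hc₀
  rw [hα, hβ] at h2
  rw [hα, hβ] at hs
  refine le_trans (le_of_eq ?_) (hs.trans ?_)
  · congr! 2
  · apply mul_le_mul_of_nonneg_left _ (by positivity)
    exact add_le_add le_rfl h2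

end Pool.Agent.K9h5.M
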