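import Mathlib
import Pool.Agent.K9h5.M.Est

/-!
# Numerical estimates
-/

set_option autoImplicit false
set_option linter.all false

namespace Pool.Agent.K9h5.M

theorem num_final (C₁ C₃ c₀ rr M3 T t x y w cl : ℝ) (hC₁ : 0 ≤ C₁) (hC₃ : 0 ≤ C₃) (hc₀ : 0 < c₀)
    (hrr : 0 ≤ rr) (hM3 : 0 ≤ M3) (hT : 1 ≤ T) (ht : 0 < t) (hx : 1 ≤ x)
    (hxt : x ≤ √t) (hy : y = x ^ (995 / 1000 : ℝ)) (hw : y ≤ w) (hcl : 0 ≤ cl) :
    2 * (C₁ * rr * (C₃ * T ^ 2 / y)) + 4 / c₀ ^ 2 *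
      ((C₃ * T ^ 2 / y) * √(2 * M3 * x * √(2 * x * (C₁ * √x + 2 * C₁))) +
        x * √(4 * C₁ * M3 * (C₃ * T ^ 2 / y)) * (1 / √t + M3 * (cl * T ^ 2) / w)) ≤
    (2 * C₁ * rr * C₃ + 4 / c₀ ^ 2 * (C₃ * √(2 * M3 * √(6 * C₁)) +
      √(4 * C₁ * M3 * C₃) * (1 + M3 * cl))) * (T ^ 3 * x ^ (-(12 / 100) : ℝ)) := by
  have hx0 : 0 < x := by linarith
  have hy0 : 0 < y := by rw [hy]; positivity
  have hT0 : 0 < T := by linarith
  have hst : 0 < √t := Real.sqrt_pos.2 ht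
  have hw0 : 0 < w := by linarith
  have hsy : 0 < √y := Real.sqrt_pos.2 hy0
  set z : ℝ := x ^ (-(12 / 100) : ℝ) with hz
  have hz0 : 0 < z := by positivity
  have hT23 : T ^ 2 ≤ T ^ 3 := pow_le_pow_right₀ hT (by norm_num)
  have hT13 : T ≤ T ^ 3 := by
    calc T = T ^ 1 := (pow_one T).symm
      _ ≤ T ^ 3 := pow_le_pow_right₀ hT (by norm_num)
  have e5 : 1 / y ≤ z := by rw [hy]; exact est5 x hx
  have e3 : 1 / √y ≤ z := by rw [hy]; exact est3 x hx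
  have e2 : x ^ (7 / 8 : ℝ) / y ≤ z := by rw [hy]; exact est2 x hx
  have e4 : x / (y * √y) ≤ z := by rw [hy]; exact est4 x hx
  have e1 := est1 C₁ (2 * M3) x hC₁ (by positivity) hx
  -- first term
  have t1 : 2 * (C₁ * rr * (C₃ * T ^ 2 / y)) ≤ (2 * C₁ * rr * C₃) * (T ^ 3 * z) := by
    have h1 : T ^ 2 * (1 / y) ≤ T ^ 3 * z := mul_le_mul hT23 e5 (by positivity) (by positivity)
    calc 2 * (C₁ * rr * (C₃ * T ^ 2 / y)) = (2 * C₁ * rr * C₃) * (T ^ 2 * (1 / y)) := by ring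
      _ ≤ (2 * C₁ * rr * C₃) * (T ^ 3 * z) := mul_le_mul_of_nonneg_left h1 (by positivity)
  -- second term
  have t2 : (C₃ * T ^ 2 / y) * √(2 * M3 * x * √(2 * x * (C₁ * √x + 2 * C₁))) ≤
      (C₃ * √(2 * M3 * √(6 * C₁))) * (T ^ 3 * z) := by
    have h1 : T ^ 2 * (x ^ (7 / 8 : ℝ) / y) ≤ T ^ 3 * z :=
      mul_le_mul hT23 e2 (by positivity) (by positivity)
    calc (C₃ * T ^ 2 / y) * √(2 * M3 * x * √(2 * x * (C₁ * √x + 2 * C₁))) ≤
        (C₃ * T ^ 2 / y) * (√(2 * M3 * √(6 * C₁)) * x ^ (7 / 8 : ℝ)) :=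
          mul_le_mul_of_nonneg_left e1 (by positivity)
      _ = (C₃ * √(2 * M3 * √(6 * C₁))) * (T ^ 2 * (x ^ (7 / 8 : ℝ) / y)) := by ring
      _ ≤ (C₃ * √(2 * M3 * √(6 * C₁))) * (T ^ 3 * z) :=
          mul_le_mul_of_nonneg_left h1 (by positivity)
  -- third term
  have hsq : √(4 * C₁ * M3 * (C₃ * T ^ 2 / y)) = √(4 * C₁ * M3 * C₃) * (T / √y) := by
    have h1 : 4 * C₁ * M3 * (C₃ * T ^ 2 / y) = (4 * C₁ * M3 * C₃) * (T ^ 2 / y) := by ring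
    rw [h1, Real.sqrt_mul (by positivity), Real.sqrt_div (by positivity), Real.sqrt_sq hT0.le]
  have t3 : x * √(4 * C₁ * M3 * (C₃ * T ^ 2 / y)) * (1 / √t + M3 * (cl * T ^ 2) / w) ≤
      (√(4 * C₁ * M3 * C₃) * (1 + M3 * cl)) * (T ^ 3 * z) := by
    rw [hsq]
    have h1 : x * (T / √y) * (1 / √t) ≤ T ^ 3 * z := by
      have h2 : x * (1 / √t) ≤ 1 := by
        rw [mul_one_div, div_le_one hst]
        exact hxt
      calc x * (T / √y) * (1 / √t) = (x * (1 / √t)) * (T * (1 / √y)) := by ring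
        _ ≤ 1 * (T ^ 3 * z) := by
          apply mul_le_mul h2 _ (by positivity) (by norm_num)
          exact mul_le_mul hT13 e3 (by positivity) (by positivity)
        _ = T ^ 3 * z := one_mul _
    have h2 : x * (T / √y) * (M3 * (cl * T ^ 2) / w) ≤ (M3 * cl) * (T ^ 3 * z) := by
      calc x * (T / √y) * (M3 * (cl * T ^ 2) / w) ≤ x * (T / √y) * (M3 * (cl * T ^ 2) / y) := by
            apply mul_le_mul_of_nonneg_left _ (by positivity)
            exact div_le_div_of_nonneg_left (by positivity) hy0 hw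
        _ = (M3 * cl) * (T ^ 3 * (x / (y * √y))) := by field_simp
        _ ≤ (M3 * cl) * (T ^ 3 * z) := by
            apply mul_le_mul_of_nonneg_left _ (by positivity)
            exact mul_le_mul_of_nonneg_left e4 (by positivity)
    calc x * (√(4 * C₁ * M3 * C₃) * (T / √y)) * (1 / √t + M3 * (cl * T ^ 2) / w) =
        √(4 * C₁ * M3 * C₃) * (x * (T / √y) * (1 / √t) +
          x * (T / √y) * (M3 * (cl * T ^ 2) / w)) := by ring
      _ ≤ √(4 * C₁ * M3 * C₃) * (T ^ 3 * z + (M3 * cl) * (T ^ 3 * z)) := by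
          apply mul_le_mul_of_nonneg_left _ (Real.sqrt_nonneg _)
          linarith
      _ = (√(4 * C₁ * M3 * C₃) * (1 + M3 * cl)) * (T ^ 3 * z) := by ring
  have hc : 0 < 4 / c₀ ^ 2 := by positivity
  calc _ ≤ (2 * C₁ * rr * C₃) * (T ^ 3 * z) + 4 / c₀ ^ 2 *
      ((C₃ * √(2 * M3 * √(6 * C₁))) * (T ^ 3 * z) +
        (√(4 * C₁ * M3 * C₃) * (1 + M3 * cl)) * (T ^ 3 * z)) := by
        apply add_le_add t1
        apply mul_le_mul_of_nonneg_left _ hc.le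
        exact add_le_add t2 t3
    _ = _ := by ring

theorem num_mu (T t y w c L2 rr M5 : ℝ) (hT : 1 ≤ T) (ht : 0 < t) (hy : 0 < y) (hyt : y ≤ t)
    (hw : y ≤ w) (hc : 0 ≤ c) (hL : 0 < L2) (hr : 0 ≤ rr) (M : ℝ) (hM0 : 0 ≤ M)
    (hM : M ≤ M5 * t) (hM5 : 0 ≤ M5) :
    2 * rr * (1 + M * (c * (2 * T) ^ 2 / L2) / w) ≤
      (2 * rr * (1 + M5 * (4 * c / L2))) * T ^ 2 / y * t := by
  have hT0 : 0 < T := by linarith
  have hw0 : 0 < w := by linarith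
  have h1 : 1 ≤ T ^ 2 / y * t := by
    rw [div_mul_eq_mul_div, le_div_iff₀ hy, one_mul]
    have : 1 ≤ T ^ 2 := one_le_pow₀ hT
    nlinarith
  have h2 : M * (c * (2 * T) ^ 2 / L2) / w ≤ (M5 * (4 * c / L2)) * (T ^ 2 / y * t) := by
    calc M * (c * (2 * T) ^ 2 / L2) / w ≤ (M5 * t) * (c * (2 * T) ^ 2 / L2) / y := by
          apply div_le_div₀ (by positivity) _ hy hw
          exact mul_le_mul_of_nonneg_right hM (by positivity)
      _ = (M5 * (4 * c / L2)) * (T ^ 2 / y * t) := by ring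
  calc 2 * rr * (1 + M * (c * (2 * T) ^ 2 / L2) / w) ≤
      2 * rr * (T ^ 2 / y * t + (M5 * (4 * c / L2)) * (T ^ 2 / y * t)) := by
        apply mul_le_mul_of_nonneg_left _ (by positivity)
        linarith
    _ = (2 * rr * (1 + M5 * (4 * c / L2))) * T ^ 2 / y * t := by ring

theorem num_z (T : ℝ) (hT : 1 ≤ T) (m : ℕ) (x : ℝ) (hx : 0 < x) (hxl : √(T ^ m) / 2 ≤ x) :
    T ^ 3 * x ^ (-(12 / 100) : ℝ) ≤ 2 * T ^ (3 - 6 / 100 * (m : ℝ)) := by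
  have hT0 : 0 < T := by linarith
  have hs : 0 < √(T ^ m) := Real.sqrt_pos.2 (by positivity)
  have h1 : x ^ (-(12 / 100) : ℝ) ≤ (√(T ^ m) / 2) ^ (-(12 / 100) : ℝ) :=
    Real.rpow_le_rpow_of_nonpos (by positivity) hxl (by norm_num)
  have h2 : (√(T ^ m) / 2) ^ (-(12 / 100) : ℝ) ≤ 2 * T ^ (-(6 / 100 * (m : ℝ))) := by
    rw [div_eq_mul_inv, Real.mul_rpow (by positivity) (by positivity), mul_comm]
    refine mul_le_mul ?_ (le_of_eq ?_) (by positivity) (by norm_num)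
    · rw [← Real.rpow_neg_one, ← Real.rpow_mul (by norm_num)]
      calc (2 : ℝ) ^ ((-1 : ℝ) * -(12 / 100)) ≤ (2 : ℝ) ^ (1 : ℝ) :=
            Real.rpow_le_rpow_of_exponent_le (by norm_num) (by norm_num)
        _ = 2 := Real.rpow_one _
    · rw [Real.sqrt_eq_rpow, ← Real.rpow_natCast, ← Real.rpow_mul hT0.le, ← Real.rpow_mul hT0.le]
      congr 1
      ring
  have h3 : T ^ (3 - 6 / 100 * (m : ℝ)) = T ^ 3 * T ^ (-(6 / 100 * (m : ℝ))) := by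
    rw [← Real.rpow_natCast T 3, ← Real.rpow_add hT0]
    congr 1
  rw [h3]
  calc T ^ 3 * x ^ (-(12 / 100) : ℝ) ≤ T ^ 3 * (2 * T ^ (-(6 / 100 * (m : ℝ)))) :=
        mul_le_mul_of_nonneg_left (h1.trans h2) (by positivity)
    _ = _ := by ring

end Pool.Agent.K9h5.M
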